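import Pool.Agent.Q292.TVX.Meas
import Pool.Agent.TH992.L.Ev
import Pool.Agent.Results.MP_6c8efb_pr.Displacement

/-!
The total variation distance of the laws of the stopped exploration path.
-/

set_option autoImplicit false

namespace Q292.TVX

open H974 Finset H342P H984P H984H MeasureTheory ProbabilityTheory

theorem transfer {R : ℝ} {K : ℕ} {ρ : ℤ} (hρ : ∀ ω, (exit R ω : ℤ) ≤ ρ) (hK : (K : ℤ) ≤ ρ)
    {A : Finset Edg → Prop} (hd : DetP (bx ρ).edges (exT fun _ => K) A)
    (hA : ∀ F, A F → K ≤ exit R (conf F)) :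
    ∃ B : Set (ℕ → St), ∀ p : Edg → unitInterval, (law p).real {ω | stop R ω ∈ B} =
      Pr (fun e => (p e : ℝ)) (bx ρ).edges A := by
  refine ⟨{s | ∃ ω, A (cut ω ρ) ∧ stop R ω = s}, fun p => ?_⟩
  rw [← law_cut]
  congr 1
  ext ω
  constructor
  · rintro ⟨ω', h1, h2⟩
    have h3 : K ≤ exit R ω' := by
      have := hA _ h1
      rwa [(stp_exit R).conf ω' (hρ ω')] at this
    have h4 := stop_inj h2.symm h3
    refine (hd (cut ω' ρ) (cut ω ρ) (Perc_cut_sub _ _) (Perc_cut_sub _ _) ?_).mpr h1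
    rw [inter_iff]
    intro j hj
    have hj' : (j : ℤ) ≤ ρ := by
      have : j ≤ K := hj
      omega
    rw [path_conf ω ρ j hj', path_conf ω' ρ j hj']
    exact h4 j hj
  · intro h
    exact ⟨ω, h, rfl⟩

theorem tail_lt {R : ℝ} {ρ : ℤ} (hρ : ∀ ω, (exit R ω : ℤ) ≤ ρ) (K : ℕ) :
    Pr hf (bx ρ).edges (fun F => ¬ K ≤ exit R (conf F)) ≤ perc.real {ω | R ≤ reach K ω} := by
  rw [← perc_cut']
  refine measureReal_mono ?_
  intro ω h
  rw [Set.mem_ofPred_eq, (stp_exit R).conf ω (hρ ω), not_le] at h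
  refine (exit_spec R ω).trans ?_
  unfold reach
  exact Finset.le_sup' (fun k => ‖gam ω k‖) (Finset.mem_range.mpr (by omega))

theorem detP_exit {R : ℝ} (S : Finset Edg) (K : ℕ) :
    DetP S (exT fun _ => K) (fun F => K ≤ exit R (conf F)) := by
  intro F G _ _ h
  have h1 := inter_iff.mp h
  beta_reduce
  rw [le_exit_iff, le_exit_iff]
  refine forall_congr' fun k => ?_
  constructor
  · intro h2 hk
    have := h2 hk
    unfold gam at this ⊢
    rwa [h1 k hk.le] at this
  · intro h2 hk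
    have := h2 hk
    unfold gam at this ⊢
    rwa [h1 k hk.le]

theorem geom_le {L : ℝ} (hL : 0 < L) (N : ℕ) :
    ∑ n ∈ range N, Real.exp (-(n / L)) ≤ 1 + L := by
  set x := Real.exp (-(1 / L)) with hx
  have hx0 : 0 < x := Real.exp_pos _
  have hx1 : x ≤ L / (1 + L) := by
    rw [hx, Real.exp_neg]
    have h1 := Real.add_one_le_exp (1/L)
    have h2 : 1 / L + 1 = (1 + L) / L := by field_simp
    rw [h2] at h1
    have h3 := inv_anti₀ (by positivity) h1
    rwa [inv_div] at h3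
  have h1 : ∀ n : ℕ, Real.exp (-(n / L)) = x ^ n := by
    intro n
    rw [hx, ← Real.exp_nat_mul]
    congr 1
    ring
  simp only [h1]
  have h2 : (∑ n ∈ range N, x ^ n) * (1 - x) ≤ 1 := by
    have := geom_sum_mul x N
    have h3 : 0 < x ^ N := pow_pos hx0 N
    nlinarith
  have h3 : 1 / (1 + L) ≤ 1 - x := by
    have : 1 / (1 + L) = 1 - L / (1 + L) := by field_simp; ring
    linarith
  have h4 : 0 ≤ ∑ n ∈ range N, x ^ n := Finset.sum_nonneg fun n _ => (pow_pos hx0 n).le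
  have h5 : (∑ n ∈ range N, x ^ n) * (1 / (1 + L)) ≤ 1 :=
    (mul_le_mul_of_nonneg_left h3 h4).trans h2
  rw [mul_one_div, div_le_iff₀ (by positivity)] at h5
  linarith

/-- The mean of the exit time. -/
theorem mean_exit : ∃ C : ℝ, 0 < C ∧ ∀ R : ℝ, 1 ≤ R → ∀ ρ : ℤ, (∀ ω, (exit R ω : ℤ) ≤ ρ) →
    Ex hf (bx ρ).edges (fun F => ((exT (exit R) F).card : ℝ)) ≤ C * R ^ (7/4 : ℝ) := by
  obtain ⟨-, ⟨C0, hC0, hU⟩, -⟩ := Pool.Agent.Results.MP_6c8efb_pr.Displacement.inputs
  obtain ⟨l, hl, h⟩ := TH992.L.reach_tail hC0 hU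
  refine ⟨27 * (1 + l * (20 : ℝ) ^ (7/4 : ℝ)), by positivity, fun R hR ρ hρ => ?_⟩
  have hR0 : 0 < R := by linarith
  set N : ℕ := ρ.toNat with hN
  have hNb : ∀ ω, exit R ω ≤ N := fun ω => by have := hρ ω; omega
  set W : ℝ := (20 * R) ^ (7/4 : ℝ) with hW
  have hW0 : 0 < W := by positivity
  have h1 : Ex hf (bx ρ).edges (fun F => ((exT (exit R) F).card : ℝ)) ≤
      Ex hf (bx ρ).edges (fun F => ∑ n ∈ range N, ind (n < exit R (conf F))) := by
    refine Ex_mono hf_ok fun F _ => ?_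
    have h2 : ((exT (exit R) F).card : ℝ) ≤ exit R (conf F) := by
      exact_mod_cast card_exT_le (exit R) F
    refine h2.trans (le_of_eq ?_)
    have h3 : ∑ n ∈ range N, ind (n < exit R (conf F)) =
        ∑ n ∈ range N, (if n < exit R (conf F) then (1:ℝ) else 0) :=
      Finset.sum_congr rfl fun n _ => by
        split_ifs with h4
        · exact ind_of h4
        · exact ind_not_of h4
    rw [h3, ← Finset.sum_filter, Finset.sum_const, nsmul_eq_mul, mul_one]
    have h4 : (range N).filter (fun n => n < exit R (conf F)) = range (exit R (conf F)) := by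
      ext n
      rw [Finset.mem_filter, Finset.mem_range, Finset.mem_range]
      have := hNb (conf F)
      omega
    rw [h4, Finset.card_range]
  rw [Ex_sum] at h1
  refine h1.trans ?_
  have h2 : ∀ n ∈ range N, Ex hf (bx ρ).edges (fun F => ind (n < exit R (conf F))) ≤
      27 * Real.exp (-(n / (l * W))) := by
    intro n _
    have h3 : Ex hf (bx ρ).edges (fun F => ind (n < exit R (conf F))) ≤
        perc.real {ω | reach n ω ≤ R} := by
      change Pr hf (bx ρ).edges (fun F => n < exit R (conf F)) ≤ _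
      rw [← perc_cut']
      refine measureReal_mono ?_
      intro ω hω
      rw [Set.mem_ofPred_eq, (stp_exit R).conf ω (hρ ω)] at hω
      show reach n ω ≤ R
      unfold reach
      refine Finset.sup'_le _ _ fun k hk => ?_
      rw [Finset.mem_range] at hk
      exact (lt_of_lt_exit (by omega)).le
    have h4 := h n R ((n : ℝ) / W) (by linarith) (by positivity)
      (le_of_eq (div_mul_cancel₀ _ hW0.ne'))
    refine (h3.trans h4).trans ?_
    set y : ℝ := (n : ℝ) / W / l with hy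
    have hy0 : 0 ≤ y := by positivity
    have h5 : (n : ℝ) / (l * W) = y := by rw [hy]; field_simp
    rw [h5]
    have h6 : Real.exp (-y ^ 8) ≤ Real.exp 1 * Real.exp (-y) := by
      rw [← Real.exp_add]
      apply Real.exp_le_exp.mpr
      have h7 : y ≤ 1 + y ^ 8 := by
        rcases le_total y 1 with h8 | h8
        · have : 0 ≤ y ^ 8 := by positivity
          linarith
        · have : y ^ 1 ≤ y ^ 8 := pow_le_pow_right₀ h8 (by norm_num)
          linarith
      linarith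
    have h7 : Real.exp 1 ≤ 3 := by
      have := Real.exp_one_lt_d9
      linarith
    have h8 := Real.exp_pos (-y)
    calc 9 * Real.exp (-y ^ 8) ≤ 9 * (Real.exp 1 * Real.exp (-y)) := by linarith
      _ ≤ 9 * (3 * Real.exp (-y)) := by
          have := mul_le_mul_of_nonneg_right h7 h8.le
          linarith
      _ = 27 * Real.exp (-y) := by ring
  refine (Finset.sum_le_sum h2).trans ?_
  rw [← Finset.mul_sum]
  have h3 := geom_le (L := l * W) (by positivity) N
  have h4 : (1:ℝ) ≤ R ^ (7/4 : ℝ) := Real.one_le_rpow hR (by norm_num)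
  have h5 : W = (20:ℝ) ^ (7/4 : ℝ) * R ^ (7/4 : ℝ) := by
    rw [hW, Real.mul_rpow (by norm_num) hR0.le]
  rw [h5] at h3
  have h6 : (1:ℝ) + l * (20 ^ (7/4 : ℝ) * R ^ (7/4 : ℝ)) ≤
      (1 + l * (20 : ℝ) ^ (7/4 : ℝ)) * R ^ (7/4 : ℝ) := by
    nlinarith
  calc 27 * ∑ n ∈ range N, Real.exp (-(n / (l * W)))
      ≤ 27 * ((1 + l * (20 : ℝ) ^ (7/4 : ℝ)) * R ^ (7/4 : ℝ)) := by
        rw [h5]
        linarith
    _ = _ := by ring

/-- The upper bound. -/
theorem upper : ∃ C : ℝ, 0 < C ∧ ∀ R : ℝ, 1 ≤ R → ∀ δ : ℝ, δ ≤ 1/4 →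
    ∀ p : Edg → unitInterval, (∀ e, |(p e : ℝ) - 1/2| ≤ δ) → ∀ B : Set (ℕ → St),
      |(law p).real {ω | stop R ω ∈ B} - perc.real {ω | stop R ω ∈ B}| ≤
        Real.sqrt (1 - Real.exp (-(C * δ ^ 2 * R ^ (7/4 : ℝ)))) := by
  obtain ⟨C, hC, h⟩ := mean_exit
  refine ⟨3 * C, by positivity, fun R hR δ hδ p hp B => ?_⟩
  obtain ⟨N, hN⟩ := exit_bdd R
  have hρ : ∀ ω, (exit R ω : ℤ) ≤ (N : ℤ) := fun ω => by exact_mod_cast hN ω
  rw [← law_half, law_stop p hρ, law_stop (fun _ => half) hρ]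
  have h1 := tv_upper (p := fun e => (p e : ℝ)) (fun e => ⟨(p e).2.1, (p e).2.2⟩)
    (tree_exT (stp_exit R) hρ) (detP_stop (bx N).edges B).det
    (fun F => ind_nonneg _) (fun F => ind_le_one _) hδ hp (h R hR N hρ)
  refine h1.trans (le_of_eq ?_)
  congr 3
  ring

end Q292.TVX
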