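import Pool.Agent.Q292.TVX.Fin

/-!
Lower bounds for the total variation distance of the laws of the stopped exploration path.
-/

set_option autoImplicit false

namespace Q292.TVX

open H974 Finset H342P H984P H984H MeasureTheory ProbabilityTheory

/-- The path does not leave the ball of radius `R` in much less than `R ^ (7/4)` steps. -/
theorem short {η : ℝ} (hη : 0 < η) : ∃ θ : ℝ, 0 < θ ∧ θ ≤ 1 ∧ ∀ (R : ℝ) (K : ℕ), 0 < R →
    1 ≤ K → (K : ℝ) ≤ θ * R ^ (7/4 : ℝ) → perc.real {ω | R ≤ reach K ω} ≤ η := by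
  obtain ⟨a, A, ha, hA, h⟩ := Pool.Agent.Results.MP_6c8efb_pr.Displacement.result.2.2.2.1
  set y : ℝ := max 1 (A / (a * η)) with hy
  have hy1 : 1 ≤ y := le_max_left _ _
  have hy0 : 0 < y := by linarith
  refine ⟨(y ^ 2) ^ (-(7/4) : ℝ), by positivity, ?_, fun R K hR hK hKθ => ?_⟩
  · apply Real.rpow_le_one_of_one_le_of_nonpos
    · nlinarith
    · norm_num
  · have hK0 : (0:ℝ) < K := by exact_mod_cast hK
    have h1 : y ^ 2 * (K : ℝ) ^ (4/7 : ℝ) ≤ R := by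
      have h2 : (K : ℝ) ^ (4/7 : ℝ) ≤ ((y ^ 2) ^ (-(7/4) : ℝ) * R ^ (7/4 : ℝ)) ^ (4/7 : ℝ) :=
        Real.rpow_le_rpow hK0.le hKθ (by norm_num)
      rw [Real.mul_rpow (by positivity) (by positivity), ← Real.rpow_mul (by positivity),
        ← Real.rpow_mul hR.le] at h2
      norm_num at h2
      have h3 : (y ^ 2) ^ (-1 : ℝ) = (y ^ 2)⁻¹ := Real.rpow_neg_one _
      have h4 : y ^ 2 * (K : ℝ) ^ (4/7 : ℝ) ≤ y ^ 2 * ((y ^ 2)⁻¹ * R) := by
        refine mul_le_mul_of_nonneg_left ?_ (by positivity)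
        simpa [h3] using h2
      refine h4.trans (le_of_eq ?_)
      field_simp
    have h2 := (h K (y ^ 2) hK (by positivity)).1
    have h3 : perc.real {ω | R ≤ reach K ω} ≤
        perc.real {ω | y ^ 2 * (K : ℝ) ^ (4/7 : ℝ) ≤ reach K ω} := by
      refine measureReal_mono ?_
      intro ω hω
      exact h1.trans hω
    refine h3.trans (h2.trans ?_)
    have h4 : (y ^ 2) ^ (1/2 : ℝ) = y := by
      rw [← Real.sqrt_eq_rpow, Real.sqrt_sq hy0.le]
    rw [h4, Real.exp_neg, ← div_eq_mul_inv, div_le_iff₀ (Real.exp_pos _)]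
    have h5 := Real.add_one_le_exp (a * y)
    have h6 : A / (a * η) ≤ y := le_max_right _ _
    rw [div_le_iff₀ (by positivity)] at h6
    nlinarith

theorem tail_half {R : ℝ} {ρ : ℤ} (hρ : ∀ ω, (exit R ω : ℤ) ≤ ρ) {η θ : ℝ}
    (hR : 0 < R) (h : ∀ (R : ℝ) (K : ℕ), 0 < R →
    1 ≤ K → (K : ℝ) ≤ θ * R ^ (7/4 : ℝ) → perc.real {ω | R ≤ reach K ω} ≤ η) {K : ℕ}
    (hK : (K : ℝ) ≤ θ * R ^ (7/4 : ℝ)) (hK1 : 1 ≤ K) :
    Pr hf (bx ρ).edges (fun F => ¬ K ≤ exit R (conf F)) ≤ η :=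
  (tail_lt hρ K).trans (h R K hR hK1 hK)

theorem law_cst {R : ℝ} {K : ℕ} {ρ : ℤ} (hρ : ∀ ω, (exit R ω : ℤ) ≤ ρ) (hK : (K : ℤ) ≤ ρ)
    {A : Finset Edg → Prop} (hd : DetP (bx ρ).edges (exT fun _ => K) A)
    (hA : ∀ F, A F → K ≤ exit R (conf F)) :
    ∃ B : Set (ℕ → St), (∀ q : unitInterval, (law (fun _ => q)).real {ω | stop R ω ∈ B} =
      Pr (cst (q : ℝ)) (bx ρ).edges A) ∧ perc.real {ω | stop R ω ∈ B} = Pr hf (bx ρ).edges A := by
  obtain ⟨B, hB⟩ := transfer hρ hK hd hA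
  refine ⟨B, fun q => hB _, ?_⟩
  rw [← law_half, hB]
  rfl

/-- Asymptotic separation above the threshold. -/
theorem sep {ε : ℝ} (hε : 0 < ε) : ∃ M : ℝ, 0 < M ∧ ∀ R : ℝ, 1 ≤ R → ∀ q : unitInterval,
    M ≤ |(q : ℝ) - 1/2| * R ^ (7/8 : ℝ) → ∃ B : Set (ℕ → St),
      (law (fun _ => q)).real {ω | stop R ω ∈ B} ≤ ε ∧ 1 - ε ≤ perc.real {ω | stop R ω ∈ B} := by
  obtain ⟨θ, hθ, hθ1, h⟩ := short (half_pos hε)
  set M : ℝ := Real.sqrt ((4 + 128 / ε) / θ) with hM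
  have hM0 : 0 < M := Real.sqrt_pos.mpr (by positivity)
  have hM2 : M ^ 2 = (4 + 128 / ε) / θ := Real.sq_sqrt (by positivity)
  refine ⟨M, hM0, fun R hR q hq => ?_⟩
  have hR0 : 0 < R := by linarith
  set d : ℝ := |(q : ℝ) - 1/2| with hd
  have hd0 : 0 ≤ d := abs_nonneg _
  have hd1 : d ≤ 1/2 := by
    rw [hd, abs_le]
    constructor <;> linarith [q.2.1, q.2.2]
  set r : ℝ := R ^ (7/8 : ℝ) with hr
  have hr0 : 0 < r := by positivity
  have hr2 : r ^ 2 = R ^ (7/4 : ℝ) := by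
    rw [hr, ← Real.rpow_natCast, ← Real.rpow_mul hR0.le]
    norm_num
  have h1 : 2 * M ≤ r := by nlinarith
  set W : ℝ := θ * R ^ (7/4 : ℝ) with hW
  have hW16 : 16 ≤ W := by
    have h2 : (2 * M) ^ 2 ≤ r ^ 2 := pow_le_pow_left₀ (by positivity) h1 2
    rw [mul_pow, hM2, hr2] at h2
    have h3 : θ * ((2:ℝ) ^ 2 * ((4 + 128 / ε) / θ)) ≤ θ * R ^ (7/4 : ℝ) :=
      mul_le_mul_of_nonneg_left h2 hθ.le
    have h4 : θ * ((2:ℝ) ^ 2 * ((4 + 128 / ε) / θ)) = 16 + 512 / ε := by field_simp; ring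
    rw [h4] at h3
    have : 0 < 512 / ε := by positivity
    linarith
  set K : ℕ := ⌊W⌋₊ with hK
  have hKW : (K : ℝ) ≤ W := Nat.floor_le (by linarith)
  have hK16 : 16 ≤ K := Nat.le_floor (by simpa using hW16)
  have hWK : W < K + 1 := Nat.lt_floor_add_one W
  obtain ⟨N, hN⟩ := exit_bdd R
  have hρ : ∀ ω, (exit R ω : ℤ) ≤ ((N + K : ℕ) : ℤ) := fun ω => by
    have := hN ω
    omega
  have hKρ : (K : ℤ) ≤ ((N + K : ℕ) : ℤ) := by omega
  have htail := tail_half hρ hR0 h hKW (by omega)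
  obtain ⟨A, hA1, hA2, hA3, hA4⟩ := separate (tree_exT (stp_const K) (fun _ => hKρ)) q.2.1 q.2.2
    (k := K / 8) (fun F _ => card_exT_ge (fun _ => K) F) (detP_exit _ K) htail
  obtain ⟨B, hB1, hB2⟩ := law_cst hρ hKρ hA1 hA2
  refine ⟨B, ?_⟩
  rw [hB1, hB2]
  have hexp : Real.exp (-(((q : ℝ) - 1/2) ^ 2 * ((K / 8 : ℕ) : ℝ) / 2)) ≤ ε / 2 := by
    have h2 : W / 32 ≤ ((K / 8 : ℕ) : ℝ) := by
      have h3 : K ≤ 16 * (K / 8) := by omega
      have h4 : (K : ℝ) ≤ 16 * ((K / 8 : ℕ) : ℝ) := by exact_mod_cast h3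
      have h5 : (16:ℝ) ≤ K := by exact_mod_cast hK16
      linarith
    have h3 : ((q : ℝ) - 1/2) ^ 2 = d ^ 2 := (sq_abs _).symm
    rw [h3]
    have h4 : 2 / ε ≤ d ^ 2 * ((K / 8 : ℕ) : ℝ) / 2 := by
      have h5 : d ^ 2 * (W / 32) ≤ d ^ 2 * ((K / 8 : ℕ) : ℝ) :=
        mul_le_mul_of_nonneg_left h2 (sq_nonneg _)
      have h6 : M ^ 2 ≤ (d * r) ^ 2 := pow_le_pow_left₀ hM0.le hq 2
      rw [mul_pow, hr2, hM2] at h6
      have h7 : θ * ((4 + 128 / ε) / θ) ≤ θ * (d ^ 2 * R ^ (7/4 : ℝ)) :=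
        mul_le_mul_of_nonneg_left h6 hθ.le
      have h8 : θ * ((4 + 128 / ε) / θ) = 4 + 128 / ε := by field_simp
      have h9 : θ * (d ^ 2 * R ^ (7/4 : ℝ)) = d ^ 2 * W := by rw [hW]; ring
      rw [h8, h9] at h7
      have h10 : (128 : ℝ) / ε = 64 * (2 / ε) := by ring
      linarith
    have h5 : 0 < 2 / ε := by positivity
    have h6 := Real.add_one_le_exp (2 / ε)
    calc Real.exp (-(d ^ 2 * ((K / 8 : ℕ) : ℝ) / 2)) ≤ Real.exp (-(2 / ε)) :=
          Real.exp_le_exp.mpr (by linarith)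
      _ ≤ ε / 2 := by
          rw [Real.exp_neg]
          have h7 := inv_anti₀ h5 (by linarith : 2 / ε ≤ Real.exp (2 / ε))
          rwa [inv_div] at h7
  constructor
  · linarith
  · linarith

/-- The first edge. -/
theorem base {R : ℝ} (hR : 1 ≤ R) : ∃ B : Set (ℕ → St), ∀ q : unitInterval,
    |(q : ℝ) - 1/2| ≤
      |(law (fun _ => q)).real {ω | stop R ω ∈ B} - perc.real {ω | stop R ω ∈ B}| := by
  obtain ⟨N, hN⟩ := exit_bdd R
  have hρ : ∀ ω, (exit R ω : ℤ) ≤ ((N + 1 : ℕ) : ℤ) := fun ω => by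
    have := hN ω
    omega
  have hKρ : ((1 : ℕ) : ℤ) ≤ ((N + 1 : ℕ) : ℤ) := by omega
  set e0 : Edg := (0, 0, false) with he0
  have hmem : e0 ∈ (bx ((N + 1 : ℕ) : ℤ)).edges := by
    change (0, 0, false) ∈ RE (-((N + 1 : ℕ) : ℤ)) ((N + 1 : ℕ) : ℤ) 0 ((N + 1 : ℕ) : ℤ)
    rw [mem_RE_false]
    omega
  have hd : DetP (bx ((N + 1 : ℕ) : ℤ)).edges (exT fun _ => 1) (fun F => e0 ∈ F) := by
    intro F G _ _ h
    have h1 := agree_path (inter_iff.mp h) 0 Nat.one_pos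
    have h2 : ea (path (conf F) 0) = e0 := rfl
    rw [h2] at h1
    have h3 := h1 ⟨le_rfl, by simp [he0]⟩
    simpa [conf] using h3.symm
  have hA : ∀ F : Finset Edg, e0 ∈ F → 1 ≤ exit R (conf F) := by
    intro F _
    rw [le_exit_iff]
    intro k hk
    have : k = 0 := by omega
    subst this
    refine lt_of_lt_of_le ?_ hR
    have h1 : gam (conf F) 0 = ⟨1/4, 1/4⟩ := by
      show place ((0, 0), .ne) = _
      simp [place]
    rw [h1]
    refine lt_of_le_of_lt (Complex.norm_le_abs_re_add_abs_im _) ?_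
    norm_num
  obtain ⟨B, hB1, hB2⟩ := law_cst hρ hKρ hd hA
  have key : ∀ p : Edg → ℝ, Pr p (bx ((N + 1 : ℕ) : ℤ)).edges (fun F => e0 ∈ F) = p e0 := by
    intro p
    have h1 := cyl p (Finset.singleton_subset_iff.mpr hmem) {e0}
    rw [Finset.prod_singleton, pe, if_pos (Finset.mem_singleton_self _)] at h1
    rw [← h1]
    refine Pr_congr fun F _ => ?_
    rw [Finset.inter_self]
    constructor
    · intro h
      ext x
      simp only [Finset.mem_inter, Finset.mem_singleton]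
      exact ⟨fun h => h.2, fun h' => ⟨h' ▸ h, h'⟩⟩
    · intro h
      have : e0 ∈ F ∩ {e0} := by rw [h]; exact Finset.mem_singleton_self _
      exact (Finset.mem_inter.mp this).1
  refine ⟨B, fun q => ?_⟩
  rw [hB1, hB2, key, key]

/-- The lower bound. -/
theorem lower : ∃ c : ℝ, 0 < c ∧ ∀ R : ℝ, 1 ≤ R → ∀ q : unitInterval, ∃ B : Set (ℕ → St),
    c * min 1 (|(q : ℝ) - 1/2| * R ^ (7/8 : ℝ)) ≤
      |(law (fun _ => q)).real {ω | stop R ω ∈ B} - perc.real {ω | stop R ω ∈ B}| := by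
  obtain ⟨θ, hθ, hθ1, h⟩ := short (show (0:ℝ) < 1/40960 by norm_num)
  refine ⟨θ / (34 * 2949120), by positivity, fun R hR q => ?_⟩
  have hR0 : 0 < R := by linarith
  set d : ℝ := |(q : ℝ) - 1/2| with hd
  have hd0 : 0 ≤ d := abs_nonneg _
  set r : ℝ := R ^ (7/8 : ℝ) with hr
  have hr0 : 0 < r := by positivity
  have hr2 : r ^ 2 = R ^ (7/4 : ℝ) := by
    rw [hr, ← Real.rpow_natCast, ← Real.rpow_mul hR0.le]
    norm_num
  set m : ℝ := min 1 (d * r) with hm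
  have hm1 : m ≤ 1 := min_le_left _ _
  have hm2 : m ≤ d * r := min_le_right _ _
  have hm0 : 0 ≤ m := le_min zero_le_one (by positivity)
  obtain ⟨B0, hB0⟩ := base hR
  have small : θ / 96 * m ≤ d → ∃ B : Set (ℕ → St), θ / (34 * 2949120) * m ≤
      |(law (fun _ => q)).real {ω | stop R ω ∈ B} - perc.real {ω | stop R ω ∈ B}| := by
    intro h1
    refine ⟨B0, le_trans ?_ (hB0 q)⟩
    refine le_trans ?_ h1
    refine mul_le_mul_of_nonneg_right ?_ hm0
    apply div_le_div_of_nonneg_left hθ.le (by norm_num) (by norm_num)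
  rcases eq_or_lt_of_le hd0 with hd00 | hdpos
  · exact small (by rw [← hd00] at hm2 ⊢; nlinarith)
  set W : ℝ := min (θ * R ^ (7/4 : ℝ)) (1 / (576 * d ^ 2)) with hW
  have hW1 : W ≤ θ * R ^ (7/4 : ℝ) := min_le_left _ _
  have hW2 : W ≤ 1 / (576 * d ^ 2) := min_le_right _ _
  by_cases hW16 : 16 ≤ W
  · set K : ℕ := ⌊W⌋₊ with hK
    have hKW : (K : ℝ) ≤ W := Nat.floor_le (by linarith)
    have hK16 : 16 ≤ K := Nat.le_floor (by simpa using hW16)
    have hK16' : (16:ℝ) ≤ K := by exact_mod_cast hK16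
    have hWK : W < K + 1 := Nat.lt_floor_add_one W
    have hd2K : d ^ 2 * K ≤ 1/576 := by
      have h1 := hKW.trans hW2
      rw [le_div_iff₀ (by positivity)] at h1
      linarith
    have hd4 : d ≤ 1/4 := by
      have : d ^ 2 ≤ (1/4) ^ 2 := by nlinarith [sq_nonneg d]
      exact (pow_le_pow_iff_left₀ hd0 (by norm_num) (by norm_num)).1 this
    have hsK2 : Real.sqrt K ^ 2 = K := Real.sq_sqrt (by linarith)
    have hx : d * Real.sqrt K ≤ 1/24 := by
      have : (d * Real.sqrt K) ^ 2 ≤ (1/24) ^ 2 := by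
        rw [mul_pow, hsK2]
        norm_num
        linarith
      exact (pow_le_pow_iff_left₀ (by positivity) (by norm_num) (by norm_num)).1 this
    obtain ⟨N, hN⟩ := exit_bdd R
    have hρ : ∀ ω, (exit R ω : ℤ) ≤ ((N + K : ℕ) : ℤ) := fun ω => by
      have := hN ω
      omega
    have hKρ : (K : ℤ) ≤ ((N + K : ℕ) : ℤ) := by omega
    have htail := tail_half hρ hR0 h (hKW.trans hW1)
      (by omega)
    obtain ⟨A, hA1, hA2, hA3⟩ := linear (tree_exT (stp_const K) (fun _ => hKρ)) hd4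
      (k := K / 8) (K := K) (by omega) (by omega) (fun F _ => card_exT_ge (fun _ => K) F)
      (fun F _ => card_exT_le (fun _ => K) F) hx (detP_exit _ K) htail
    obtain ⟨B, hB1, hB2⟩ := law_cst hρ hKρ hA1 hA2
    refine ⟨B, ?_⟩
    rw [hB1, hB2]
    refine le_trans ?_ hA3
    have h1 : θ * m / 34 ≤ d * Real.sqrt K := by
      have h2 : (θ * m / 34) ^ 2 ≤ (d * Real.sqrt K) ^ 2 := by
        rw [mul_pow, hsK2]
        have h3 : W / 2 ≤ K := by linarith
        have h4 : d ^ 2 * (W / 2) ≤ d ^ 2 * K := mul_le_mul_of_nonneg_left h3 (sq_nonneg _)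
        have h5 : θ * m ^ 2 / 576 ≤ d ^ 2 * W := by
          rcases min_choice (θ * R ^ (7/4 : ℝ)) (1 / (576 * d ^ 2)) with hc | hc
          · rw [hW, hc, ← hr2]
            have h6 : m ^ 2 ≤ (d * r) ^ 2 := pow_le_pow_left₀ hm0 hm2 2
            have h7 : d ^ 2 * (θ * r ^ 2) = θ * (d * r) ^ 2 := by ring
            rw [h7]
            have h8 : θ * m ^ 2 ≤ θ * (d * r) ^ 2 := mul_le_mul_of_nonneg_left h6 hθ.le
            have h9 : 0 ≤ θ * m ^ 2 := by positivity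
            linarith
          · rw [hW, hc]
            have h6 : d ^ 2 * (1 / (576 * d ^ 2)) = 1/576 := by field_simp
            rw [h6]
            have h7 : m ^ 2 ≤ 1 := pow_le_one₀ hm0 hm1
            have h8 : θ * m ^ 2 ≤ 1 := by nlinarith [sq_nonneg m]
            linarith
        have h6 : (θ * m / 34) ^ 2 ≤ θ * m ^ 2 / 576 / 2 := by
          have h7 : (θ * m / 34) ^ 2 = θ * (θ * m ^ 2) / 1156 := by ring
          have h8 : 0 ≤ θ * m ^ 2 := by positivity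
          have h9 : θ * (θ * m ^ 2) ≤ 1 * (θ * m ^ 2) := mul_le_mul_of_nonneg_right hθ1 h8
          rw [h7]
          linarith
        linarith
      exact (pow_le_pow_iff_left₀ (by positivity) (by positivity) (by norm_num)).1 h2
    have h2 : θ / (34 * 2949120) * m = θ * m / 34 / 2949120 := by ring
    rw [h2]
    exact div_le_div_of_nonneg_right h1 (by norm_num)
  · rw [not_le] at hW16
    apply small
    rcases min_lt_iff.mp hW16 with h1 | h1
    · have h2 : (θ * r) ^ 2 ≤ 4 ^ 2 := by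
        rw [mul_pow, hr2]
        have h3 : 0 ≤ θ * R ^ (7/4 : ℝ) := by positivity
        have h4 : θ ^ 2 * R ^ (7/4 : ℝ) = θ * (θ * R ^ (7/4 : ℝ)) := by ring
        rw [h4]
        nlinarith
      have h3 : θ * r ≤ 4 := (pow_le_pow_iff_left₀ (by positivity) (by norm_num) (by norm_num)).1 h2
      have h4 : θ * m ≤ θ * (d * r) := mul_le_mul_of_nonneg_left hm2 hθ.le
      have h5 : θ * (d * r) = (θ * r) * d := by ring
      rw [h5] at h4
      have h6 : (θ * r) * d ≤ 4 * d := mul_le_mul_of_nonneg_right h3 hd0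
      have h7 : θ / 96 * m = (θ * m) / 96 := by ring
      rw [h7]
      linarith
    · rw [div_lt_iff₀ (by positivity)] at h1
      have h2 : (1/96 : ℝ) ^ 2 ≤ d ^ 2 := by
        norm_num
        linarith
      have h3 : 1/96 ≤ d := (pow_le_pow_iff_left₀ (by norm_num) hd0 (by norm_num)).1 h2
      have h4 : θ * m ≤ 1 := by nlinarith
      have h7 : θ / 96 * m = (θ * m) / 96 := by ring
      rw [h7]
      linarith

end Q292.TVX
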