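import Pool.Agent.Q292.TVX.Upper

/-!
Lower bounds for the total variation distance of the laws of an exploration.
-/

set_option autoImplicit false

namespace Q292.TVX

open H974 Finset

variable {E : Type*} [DecidableEq E]

/-- constant probabilities -/
noncomputable abbrev cst (q : ℝ) : E → ℝ := fun _ => q

omit [DecidableEq E] in
theorem cst_ok {q : ℝ} (h0 : 0 ≤ q) (h1 : q ≤ 1) : Ok (cst q : E → ℝ) := fun _ => ⟨h0, h1⟩

theorem dens_tilt {ex : Finset E → Finset E} {q r ρ : ℝ} (hq0 : 0 ≤ q) (hq1 : q ≤ 1)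
    (h1 : ρ * (2 * r) = Real.sqrt (2 * q)) (h2 : ρ * (2 * (1 - r)) = Real.sqrt (2 * (1 - q)))
    (F : Finset E) :
    ρ ^ (ex F).card * dens (cst r) ex F = Real.sqrt (dens (cst q) ex F) := by
  unfold dens
  rw [Real.sqrt_prod, ← Finset.prod_const, ← Finset.prod_mul_distrib]
  · refine Finset.prod_congr rfl fun e _ => ?_
    unfold pe
    split_ifs
    · exact h1
    · exact h2
  · intro e _
    unfold pe cst
    split_ifs <;> linarith

/-- The affinity decays exponentially with the least number of examined elements. -/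
theorem aff_le {S : Finset E} {ex : Finset E → Finset E} (ht : Tree S ex) {q : ℝ} (hq0 : 0 ≤ q)
    (hq1 : q ≤ 1) {k : ℕ} (hk : ∀ F, F ⊆ S → k ≤ (ex F).card) :
    aff (cst q) S ex ≤ Real.exp (-((q - 1/2) ^ 2 * k / 2)) := by
  set s := Real.sqrt (2 * q) with hs
  set t := Real.sqrt (2 * (1 - q)) with htt
  have s0 : 0 ≤ s := Real.sqrt_nonneg _
  have t0 : 0 ≤ t := Real.sqrt_nonneg _
  have s2 : s ^ 2 = 2 * q := Real.sq_sqrt (by linarith)
  have t2 : t ^ 2 = 2 * (1 - q) := Real.sq_sqrt (by linarith)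
  have hst : 0 < s + t := by
    rcases lt_or_eq_of_le (add_nonneg s0 t0) with h | h
    · exact h
    · exfalso
      have h1 : s = 0 := by linarith
      have h2 : t = 0 := by linarith
      rw [h1] at s2
      rw [h2] at t2
      linarith
  set ρ := (s + t) / 2 with hρ
  have hρ0 : 0 < ρ := by positivity
  set r := s / (s + t) with hr
  have h1 : ρ * (2 * r) = s := by
    rw [hρ, hr]; field_simp
  have h2 : ρ * (2 * (1 - r)) = t := by
    rw [hρ, hr]; field_simp; ring
  have hr0 : 0 ≤ r := by positivity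
  have hr1 : r ≤ 1 := by
    rw [hr, div_le_one hst]; linarith
  have hρ2 : ρ ^ 2 ≤ 1 - (q - 1/2) ^ 2 := by
    have h3 : ρ ^ 2 = (s ^ 2 + t ^ 2 + 2 * (s * t)) / 4 := by rw [hρ]; ring
    have h4 : s * t ≤ (1 + s ^ 2 * t ^ 2) / 2 := by nlinarith [sq_nonneg (1 - s * t)]
    rw [s2, t2] at h3 h4
    rw [h3]
    nlinarith
  have hρ1 : ρ ≤ 1 := by
    have : ρ ^ 2 ≤ 1 ^ 2 := by nlinarith [sq_nonneg (q - 1/2)]
    exact (pow_le_pow_iff_left₀ hρ0.le zero_le_one (by norm_num)).1 this
  have hρe : ρ ≤ Real.exp (-((q - 1/2) ^ 2 / 2)) := by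
    have h3 : ρ ^ 2 ≤ Real.exp (-((q - 1/2) ^ 2 / 2)) ^ 2 := by
      rw [← Real.exp_nat_mul]
      have h4 := Real.add_one_le_exp (-((q - 1/2) ^ 2))
      have h5 : ((2 : ℕ) : ℝ) * -((q - 1/2) ^ 2 / 2) = -((q - 1/2) ^ 2) := by push_cast; ring
      rw [h5]
      linarith
    exact (pow_le_pow_iff_left₀ hρ0.le (Real.exp_pos _).le (by norm_num)).1 h3
  have hA : aff (cst q) S ex = Ex (cst r) S (fun F => ρ ^ (ex F).card) := by
    rw [change ht (cst r) (f := fun F => ρ ^ (ex F).card)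
      (fun F G hF hG h => by beta_reduce; rw [ht.stab F G hF hG h])]
    refine Ex_congr fun F _ => ?_
    exact (dens_tilt hq0 hq1 h1 h2 F).symm
  rw [hA]
  have h6 : ∀ F, F ⊆ S → ρ ^ (ex F).card ≤ ρ ^ k := fun F hF =>
    pow_le_pow_of_le_one hρ0.le hρ1 (hk F hF)
  refine (Ex_le_of_le (cst_ok hr0 hr1) h6).trans ?_
  refine (pow_le_pow_left₀ hρ0.le hρe k).trans (le_of_eq ?_)
  rw [← Real.exp_nat_mul]
  congr 1
  ring

theorem det_dens {S : Finset E} {ex : Finset E → Finset E} (ht : Tree S ex) (p : E → ℝ) :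
    Det S ex (dens p ex) := by
  intro F G hF hG h
  unfold dens
  rw [ht.stab F G hF hG h]
  refine Finset.prod_congr rfl fun e he => ?_
  have h1 : e ∈ G ↔ e ∈ F := by
    have h2 : e ∈ G ∩ ex F ↔ e ∈ F ∩ ex F := by rw [h]
    simpa [he] using h2
  unfold pe
  simp only [h1]

/-- a determined event -/
def DetP (S : Finset E) (ex : Finset E → Finset E) (A : Finset E → Prop) : Prop :=
  ∀ F G, F ⊆ S → G ⊆ S → G ∩ ex F = F ∩ ex F → (A G ↔ A F)

theorem DetP.det {S : Finset E} {ex : Finset E → Finset E} {A : Finset E → Prop}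
    (h : DetP S ex A) : Det S ex (fun F => ind (A F)) := fun F G hF hG h1 =>
  ind_congr (h F G hF hG h1)

theorem detP_of {S : Finset E} {ex : Finset E → Finset E} {G0 : Finset E → Prop}
    (hG : DetP S ex G0) {f : Finset E → ℝ} (hf' : Det S ex f) (Q : ℝ → Prop) :
    DetP S ex (fun F => G0 F ∧ Q (f F)) := by
  intro F G hF hG' h
  beta_reduce
  rw [hG F G hF hG' h, hf' F G hF hG' h]

/-- Separation. -/
theorem separate {S : Finset E} {ex : Finset E → Finset E} (ht : Tree S ex) {q : ℝ} (hq0 : 0 ≤ q)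
    (hq1 : q ≤ 1) {k : ℕ} (hk : ∀ F, F ⊆ S → k ≤ (ex F).card) {G0 : Finset E → Prop}
    (hG : DetP S ex G0) {η : ℝ} (hη : Pr hf S (fun F => ¬ G0 F) ≤ η) :
    ∃ A : Finset E → Prop, DetP S ex A ∧ (∀ F, A F → G0 F) ∧
      Pr (cst q) S A ≤ Real.exp (-((q - 1/2) ^ 2 * k / 2)) ∧
      1 - η - Real.exp (-((q - 1/2) ^ 2 * k / 2)) ≤ Pr hf S A := by
  have hp := cst_ok (E := E) hq0 hq1
  have haf := aff_le ht hq0 hq1 hk
  have hdet := detP_of hG (det_dens ht (cst q)) (fun x => x ≤ 1)
  refine ⟨fun F => G0 F ∧ dens (cst q) ex F ≤ 1, hdet, fun F h => h.1, ?_, ?_⟩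
  · unfold Pr
    rw [change ht (cst q) hdet.det]
    refine le_trans (Ex_mono hf_ok fun F _ => ?_) haf
    have h0 := dens_nonneg' hp ex F
    by_cases h : G0 F ∧ dens (cst q) ex F ≤ 1
    · rw [ind_of h, one_mul]
      have h1 := Real.sq_sqrt h0
      have h2 : Real.sqrt (dens (cst q) ex F) ≤ 1 := Real.sqrt_le_one.mpr h.2
      have h3 := Real.sqrt_nonneg (dens (cst q) ex F)
      nlinarith
    · rw [ind_not_of h, zero_mul]
      exact Real.sqrt_nonneg _
  · have h1 : Pr hf S (fun F => ¬ (G0 F ∧ dens (cst q) ex F ≤ 1)) ≤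
        Pr hf S (fun F => ¬ G0 F) + Pr hf S (fun F => ¬ dens (cst q) ex F ≤ 1) := by
      refine le_trans (Pr_mono hf_ok fun F _ h => ?_) (Pr_or_le hf_ok S _ _)
      tauto
    have h2 : Pr hf S (fun F => ¬ dens (cst q) ex F ≤ 1) ≤ aff (cst q) S ex := by
      refine Ex_mono hf_ok fun F _ => ?_
      by_cases h : dens (cst q) ex F ≤ 1
      · rw [ind_not_of (by simpa using h)]
        exact Real.sqrt_nonneg _
      · rw [ind_of h]
        rw [not_le] at h
        exact (Real.one_le_sqrt).mpr h.le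
    rw [Pr_not] at h1
    linarith

/-! ### The linear lower bound -/

/-- the sum of the signs -/
noncomputable def sm (ex : Finset E → Finset E) (F : Finset E) : ℝ := ∑ e ∈ ex F, sg F e

theorem exp_mart {S : Finset E} {ex : Finset E → Finset E} (ht : Tree S ex) (t : ℝ) :
    Ex hf S (fun F => Real.exp (t * sm ex F) / Real.cosh t ^ (ex F).card) = 1 := by
  have hc := Real.cosh_pos t
  have h := dens_mean (p := cst (Real.exp t / (2 * Real.cosh t))) ht
  rw [← h]
  refine Ex_congr fun F _ => ?_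
  unfold dens sm
  rw [Finset.mul_sum, Real.exp_sum, ← Finset.prod_const, ← Finset.prod_div_distrib]
  refine Finset.prod_congr rfl fun e _ => ?_
  unfold pe sg
  split_ifs
  · rw [mul_one]; field_simp
  · have : 1 - Real.exp t / (2 * Real.cosh t) = Real.exp (-t) / (2 * Real.cosh t) := by
      have := Real.cosh_eq t
      field_simp
      linarith
    rw [this, mul_neg_one]
    field_simp

theorem cosh_mart {S : Finset E} {ex : Finset E → Finset E} (ht : Tree S ex) (t : ℝ) :
    Ex hf S (fun F => Real.cosh (t * sm ex F) / Real.cosh t ^ (ex F).card) = 1 := by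
  have h1 := exp_mart ht t
  have h2 := exp_mart ht (-t)
  have h3 : Ex hf S (fun F => Real.cosh (t * sm ex F) / Real.cosh t ^ (ex F).card) =
      Ex hf S (fun F => (1/2) * (Real.exp (t * sm ex F) / Real.cosh t ^ (ex F).card) +
        (1/2) * (Real.exp (-t * sm ex F) / Real.cosh (-t) ^ (ex F).card)) := by
    refine Ex_congr fun F _ => ?_
    rw [Real.cosh_neg, Real.cosh_eq (t * sm ex F), neg_mul]
    ring
  rw [h3, Ex_add, Ex_mul_left, Ex_mul_left, h1, h2]
  norm_num

theorem cosh_up {S : Finset E} {ex : Finset E → Finset E} (ht : Tree S ex) (t : ℝ) {K : ℕ}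
    (hK : ∀ F, F ⊆ S → (ex F).card ≤ K) :
    Ex hf S (fun F => Real.cosh (t * sm ex F)) ≤ Real.cosh t ^ K := by
  have h1 : Ex hf S (fun F => Real.cosh (t * sm ex F)) ≤
      Ex hf S (fun F => Real.cosh t ^ K *
        (Real.cosh (t * sm ex F) / Real.cosh t ^ (ex F).card)) := by
    refine Ex_mono hf_ok fun F hF => ?_
    have h2 : Real.cosh t ^ (ex F).card ≤ Real.cosh t ^ K :=
      pow_le_pow_right₀ (Real.one_le_cosh t) (hK F hF)
    have h3 : 0 < Real.cosh t ^ (ex F).card := pow_pos (Real.cosh_pos t) _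
    have h4 := Real.cosh_pos (t * sm ex F)
    rw [mul_div_assoc', le_div_iff₀ h3, mul_comm]
    exact mul_le_mul_of_nonneg_right h2 h4.le
  rw [Ex_mul_left, cosh_mart ht t, mul_one] at h1
  exact h1

theorem cosh_low {S : Finset E} {ex : Finset E → Finset E} (ht : Tree S ex) (t : ℝ) {k : ℕ}
    (hk : ∀ F, F ⊆ S → k ≤ (ex F).card) :
    Real.cosh t ^ k ≤ Ex hf S (fun F => Real.cosh (t * sm ex F)) := by
  have h1 : Ex hf S (fun F => Real.cosh t ^ k *
        (Real.cosh (t * sm ex F) / Real.cosh t ^ (ex F).card)) ≤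
      Ex hf S (fun F => Real.cosh (t * sm ex F)) := by
    refine Ex_mono hf_ok fun F hF => ?_
    have h2 : Real.cosh t ^ k ≤ Real.cosh t ^ (ex F).card :=
      pow_le_pow_right₀ (Real.one_le_cosh t) (hk F hF)
    have h3 : 0 < Real.cosh t ^ (ex F).card := pow_pos (Real.cosh_pos t) _
    have h4 := Real.cosh_pos (t * sm ex F)
    rw [mul_div_assoc', div_le_iff₀ h3, mul_comm (Real.cosh (t * sm ex F))]
    exact mul_le_mul_of_nonneg_right h2 h4.le
  rw [Ex_mul_left, cosh_mart ht t, mul_one] at h1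
  exact h1

theorem one_add_le_cosh (t : ℝ) : 1 + t ^ 2 / 2 ≤ Real.cosh t := by
  have h1 : Real.cosh t = 1 + 2 * Real.sinh (t/2) ^ 2 := by
    have h2 := Real.cosh_two_mul (t/2)
    have h3 := Real.cosh_sq (t/2)
    rw [h3, show 2 * (t/2) = t by ring] at h2
    rw [h2]; ring
  have h4 : (t/2) ^ 2 ≤ Real.sinh (t/2) ^ 2 := by
    rw [← sq_abs (t/2), ← sq_abs (Real.sinh (t/2)), Real.abs_sinh]
    exact pow_le_pow_left₀ (abs_nonneg _) (Real.self_le_sinh_iff.mpr (abs_nonneg _)) 2
  rw [h1]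
  nlinarith

/-- Paley–Zygmund. -/
theorem pz {S : Finset E} (N : Finset E → ℝ) {θ : ℝ} (hθ : 0 ≤ θ)
    (hE : θ ≤ Ex hf S N) :
    (Ex hf S N - θ) ^ 2 ≤ Ex hf S (fun F => N F ^ 2) * Pr hf S (fun F => θ ≤ N F) := by
  have h1 : Ex hf S N ≤ Ex hf S (fun F => N F * ind (θ ≤ N F)) + θ := by
    have h0 : Ex hf S N ≤ Ex hf S (fun F => N F * ind (θ ≤ N F) + θ) := by
      apply Ex_mono hf_ok
      intro F _
      by_cases h : θ ≤ N F
      · rw [ind_of h]; linarith
      · rw [ind_not_of h]; linarith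
    rw [Ex_add, Ex_const] at h0
    exact h0
  have h2 := Ex_cs hf_ok S N (fun F => ind (θ ≤ N F))
  have h3 : Ex hf S (fun F => (ind (θ ≤ N F)) ^ 2) = Pr hf S (fun F => θ ≤ N F) := by
    unfold Pr
    apply Ex_congr
    intro F _
    rw [sq, ind_sq]
  rw [h3] at h2
  refine le_trans ?_ h2
  apply pow_le_pow_left₀ <;> linarith

/-- The sum of the signs has the order of the square root of the number of steps with positive
probability. -/
theorem sm_big {S : Finset E} {ex : Finset E → Finset E} (ht : Tree S ex) {K k : ℕ} (hK1 : 1 ≤ K)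
    (hkK : K ≤ 16 * k) (hk : ∀ F, F ⊆ S → k ≤ (ex F).card) (hK : ∀ F, F ⊆ S → (ex F).card ≤ K) :
    1/20480 ≤ Pr hf S (fun F => Real.sqrt K / 6 ≤ |sm ex F|) := by
  have hKp : (0:ℝ) < K := by exact_mod_cast hK1
  set t : ℝ := 1 / Real.sqrt K with htd
  have hsK : 0 < Real.sqrt K := Real.sqrt_pos.mpr hKp
  have ht2 : t ^ 2 = 1 / K := by
    rw [htd, div_pow, Real.sq_sqrt hKp.le, one_pow]
  set Z : Finset E → ℝ := fun F => Real.cosh (t * sm ex F) - 1 with hZ
  have hEZ : Ex hf S Z = Ex hf S (fun F => Real.cosh (t * sm ex F)) - 1 := by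
    simp only [hZ]
    rw [Ex_sub, Ex_const]
  have h1 : 1/32 ≤ Ex hf S Z := by
    rw [hEZ]
    have h2 := cosh_low ht t hk
    have h3 : 1 + (k:ℝ) * (t ^ 2 / 2) ≤ Real.cosh t ^ k := by
      refine (one_add_mul_le_pow (a := t ^ 2 / 2) (by nlinarith [sq_nonneg t]) k).trans ?_
      exact pow_le_pow_left₀ (by positivity) (one_add_le_cosh t) k
    have h4 : (1:ℝ)/32 ≤ (k:ℝ) * (t ^ 2 / 2) := by
      rw [ht2]
      have h5 : (K:ℝ) ≤ 16 * k := by exact_mod_cast hkK
      have h6 : (k:ℝ) * (1 / K / 2) = k / (2 * K) := by field_simp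
      rw [h6, div_le_div_iff₀ (by norm_num) (by positivity)]
      linarith
    linarith
  have h2 : Ex hf S (fun F => Z F ^ 2) ≤ 5 := by
    have h3 : Ex hf S (fun F => Z F ^ 2) ≤
        Ex hf S (fun F => (1/2) * Real.cosh (2 * t * sm ex F) + 1/2) := by
      refine Ex_mono hf_ok fun F _ => ?_
      have h4 := Real.cosh_two_mul (t * sm ex F)
      have h5 := Real.cosh_sq (t * sm ex F)
      have h6 := Real.one_le_cosh (t * sm ex F)
      simp only [hZ]
      rw [show 2 * t * sm ex F = 2 * (t * sm ex F) by ring, h4]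
      nlinarith
    rw [Ex_add, Ex_mul_left, Ex_const] at h3
    have h4 := cosh_up ht (2 * t) hK
    have h5 : Real.cosh (2 * t) ^ K ≤ Real.exp 2 := by
      refine (pow_le_pow_left₀ (Real.cosh_pos _).le (Real.cosh_le_exp_half_sq (2 * t)) K).trans
        (le_of_eq ?_)
      rw [← Real.exp_nat_mul]
      congr 1
      rw [mul_pow, ht2]
      field_simp
    have h6 : Real.exp 2 ≤ 9 := by
      have h7 := Real.exp_one_lt_d9
      have h8 : Real.exp 2 = Real.exp 1 ^ 2 := by
        rw [← Real.exp_nat_mul]; norm_num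
      rw [h8]
      nlinarith [Real.exp_pos 1]
    linarith
  have h3 := pz (S := S) Z (θ := 1/64) (by norm_num) (by linarith)
  have h4 : (1/64 : ℝ) ^ 2 ≤ (Ex hf S Z - 1/64) ^ 2 :=
    pow_le_pow_left₀ (by norm_num) (by linarith) 2
  have hP0 := Pr_nonneg (hf_ok (E := E)) S (fun F => 1/64 ≤ Z F)
  have h5 : 1/20480 ≤ Pr hf S (fun F => 1/64 ≤ Z F) := by
    nlinarith
  refine h5.trans (Pr_mono hf_ok fun F _ h => ?_)
  have h6 : 65/64 ≤ Real.cosh (t * sm ex F) := by
    simp only [hZ] at h; linarith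
  have h7 := h6.trans (Real.cosh_le_exp_half_sq (t * sm ex F))
  have h8 : (1:ℝ)/65 ≤ (t * sm ex F) ^ 2 / 2 := by
    have h9 : Real.log (65/64) ≤ (t * sm ex F) ^ 2 / 2 := by
      rw [Real.log_le_iff_le_exp (by norm_num)]
      exact h7
    have h10 := Real.one_sub_inv_le_log_of_pos (x := 65/64) (by norm_num)
    norm_num at h10 h9 ⊢
    linarith
  have h9 : (1/6 : ℝ) ^ 2 ≤ |t * sm ex F| ^ 2 := by
    rw [sq_abs]
    linarith
  have h10 : 1/6 ≤ |t * sm ex F| :=
    (pow_le_pow_iff_left₀ (by norm_num) (abs_nonneg _) (by norm_num)).1 h9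
  have h11 : t * Real.sqrt K = 1 := by rw [htd]; field_simp
  rw [abs_mul, abs_of_pos (by positivity : 0 < t)] at h10
  have h12 := mul_le_mul_of_nonneg_right h10 hsK.le
  have h13 : t * |sm ex F| * Real.sqrt K = |sm ex F| := by
    rw [mul_right_comm, h11, one_mul]
  rw [h13] at h12
  linarith

/-- The density is away from `1` if the sum of the signs is large. -/
theorem dens_away {ex : Finset E → Finset E} {q : ℝ} (hq : |q - 1/2| ≤ 1/4) {K : ℕ} (hK1 : 1 ≤ K)
    (hx : |q - 1/2| * Real.sqrt K ≤ 1/24) (F : Finset E) (hK : (ex F).card ≤ K)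
    (hS : Real.sqrt K / 6 ≤ |sm ex F|) :
    |q - 1/2| * Real.sqrt K / 36 ≤ |dens (cst q) ex F - 1| := by
  have hKp : (0:ℝ) < K := by exact_mod_cast hK1
  have hsK : 0 < Real.sqrt K := Real.sqrt_pos.mpr hKp
  have hK2 : Real.sqrt K ^ 2 = K := Real.sq_sqrt hKp.le
  have hq2 := abs_le.1 hq
  have hpq : 0 < 2 * q := by linarith [hq2.1]
  have hpq' : 0 < 2 * (1 - q) := by linarith [hq2.2]
  set h : ℝ := (Real.log (2 * q) + Real.log (2 * (1 - q))) / 2 with hh
  set a : ℝ := (Real.log (2 * q) - Real.log (2 * (1 - q))) / 2 with ha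
  set d := |q - 1/2| with hd
  have d0 : 0 ≤ d := abs_nonneg _
  have hD : dens (cst q) ex F = Real.exp (h * (ex F).card + a * sm ex F) := by
    unfold dens sm
    rw [Finset.mul_sum, mul_comm h, ← nsmul_eq_mul, ← Finset.sum_const, ← Finset.sum_add_distrib,
      Real.exp_sum]
    refine Finset.prod_congr rfl fun e _ => ?_
    unfold pe sg
    split_ifs
    · have e1 : h + a * 1 = Real.log (2 * q) := by simp only [hh, ha]; ring
      rw [e1, Real.exp_log hpq]
    · have e1 : h + a * -1 = Real.log (2 * (1 - q)) := by simp only [hh, ha]; ring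
      rw [e1, Real.exp_log hpq']
  have hh1 : |h| ≤ 8/3 * d ^ 2 := by
    have h2 : h = Real.log (2 * q * (2 * (1 - q))) / 2 := by
      rw [Real.log_mul hpq.ne' hpq'.ne']
    have h3 : (2 * q * (2 * (1 - q))) = 1 - 4 * (q - 1/2) ^ 2 := by ring
    have h5 : (q - 1/2) ^ 2 = d ^ 2 := (sq_abs _).symm
    have h6 : d ^ 2 ≤ 1/16 := by nlinarith
    rw [h2, h3, h5]
    have h8 := Real.one_sub_inv_le_log_of_pos (x := 1 - 4 * d ^ 2) (by linarith)
    have h9 : (1 - 4 * d ^ 2)⁻¹ ≤ 1 + 16/3 * d ^ 2 := by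
      rw [inv_le_iff_one_le_mul₀ (by linarith)]
      nlinarith [sq_nonneg d]
    have h10 := Real.log_le_sub_one_of_pos (x := 1 - 4 * d ^ 2) (by linarith)
    rw [abs_le]
    constructor <;> nlinarith [sq_nonneg d]
  have ha1 : d ≤ |a| := by
    have l1 := Real.log_le_sub_one_of_pos hpq
    have l2 := Real.log_le_sub_one_of_pos hpq'
    rcases le_total (q - 1/2) 0 with h0 | h0
    · have h3 : 0 ≤ Real.log (2 * (1 - q)) := Real.log_nonneg (by linarith)
      have h4 : a ≤ q - 1/2 := by simp only [ha]; linarith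
      rw [hd, abs_of_nonpos h0, abs_of_nonpos (by linarith)]
      linarith
    · have h3 : 0 ≤ Real.log (2 * q) := Real.log_nonneg (by linarith)
      have h4 : q - 1/2 ≤ a := by simp only [ha]; linarith
      rw [hd, abs_of_nonneg h0, abs_of_nonneg (by linarith)]
      exact h4
  set x := d * Real.sqrt K with hxd
  have x0 : 0 ≤ x := by positivity
  have hx2 : x ^ 2 = d ^ 2 * K := by rw [hxd, mul_pow, hK2]
  have hY : x / 18 ≤ |h * (ex F).card + a * sm ex F| := by
    have h1 : |a * sm ex F| ≤ |h * (ex F).card + a * sm ex F| + |h * (ex F).card| := by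
      have := abs_sub (h * (ex F).card + a * sm ex F) (h * (ex F).card)
      rw [add_sub_cancel_left] at this
      exact this
    have h2 : x / 6 ≤ |a * sm ex F| := by
      rw [abs_mul, hxd, mul_div_assoc]
      exact mul_le_mul ha1 hS (by positivity) (abs_nonneg _)
    have h3 : |h * (ex F).card| ≤ 8/3 * x ^ 2 := by
      rw [abs_mul, hx2, ← mul_assoc, Nat.abs_cast]
      exact mul_le_mul hh1 (by exact_mod_cast hK) (by positivity) (by positivity)
    nlinarith
  rw [hD]
  set Y := h * (ex F).card + a * sm ex F with hYd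
  rcases le_total 0 Y with h0 | h0
  · rw [abs_of_nonneg h0] at hY
    have h1 := Real.add_one_le_exp Y
    rw [abs_of_nonneg (by linarith)]
    linarith
  · rw [abs_of_nonpos h0] at hY
    have h1 : Real.exp Y ≤ Real.exp (-(x/18)) := Real.exp_le_exp.mpr (by linarith)
    have h2 : Real.exp (-(x/18)) ≤ 1 / (1 + x/18) := by
      rw [Real.exp_neg, ← one_div]
      apply one_div_le_one_div_of_le (by positivity)
      have := Real.add_one_le_exp (x/18)
      linarith
    have h3 : 1 / (1 + x/18) ≤ 1 - x/36 := by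
      rw [div_le_iff₀ (by positivity)]
      nlinarith
    rw [abs_of_nonpos (by linarith)]
    linarith

/-- Linear lower bound of the total variation distance. -/
theorem linear {S : Finset E} {ex : Finset E → Finset E} (ht : Tree S ex) {q : ℝ}
    (hq : |q - 1/2| ≤ 1/4) {K k : ℕ} (hK1 : 1 ≤ K)
    (hkK : K ≤ 16 * k) (hk : ∀ F, F ⊆ S → k ≤ (ex F).card) (hK : ∀ F, F ⊆ S → (ex F).card ≤ K)
    (hx : |q - 1/2| * Real.sqrt K ≤ 1/24) {G0 : Finset E → Prop}
    (hG : DetP S ex G0) (hη : Pr hf S (fun F => ¬ G0 F) ≤ 1/40960) :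
    ∃ A : Finset E → Prop, DetP S ex A ∧ (∀ F, A F → G0 F) ∧
      |q - 1/2| * Real.sqrt K / 2949120 ≤ |Pr (cst q) S A - Pr hf S A| := by
  set x := |q - 1/2| * Real.sqrt K with hxd
  have x0 : 0 ≤ x := by positivity
  have hdet1 := detP_of hG (det_dens ht (cst q)) (fun x => 1 < x)
  have hdet2 := detP_of hG (det_dens ht (cst q)) (fun x => x < 1)
  have hb := sm_big ht hK1 hkK hk hK
  have hP : 1/40960 ≤ Pr hf S (fun F => G0 F ∧ Real.sqrt K / 6 ≤ |sm ex F|) := by
    have h1 : Pr hf S (fun F => Real.sqrt K / 6 ≤ |sm ex F|) ≤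
        Pr hf S (fun F => G0 F ∧ Real.sqrt K / 6 ≤ |sm ex F|) + Pr hf S (fun F => ¬ G0 F) := by
      refine le_trans (Pr_mono hf_ok fun F _ h => ?_) (Pr_or_le hf_ok S _ _)
      tauto
    linarith
  have hsum : x / 36 * (1/40960) ≤
      (Pr (cst q) S (fun F => G0 F ∧ 1 < dens (cst q) ex F) -
        Pr hf S (fun F => G0 F ∧ 1 < dens (cst q) ex F)) +
      (Pr hf S (fun F => G0 F ∧ dens (cst q) ex F < 1) -
        Pr (cst q) S (fun F => G0 F ∧ dens (cst q) ex F < 1)) := by
    have h1 : x / 36 * (1/40960) ≤ x / 36 *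
        Pr hf S (fun F => G0 F ∧ Real.sqrt K / 6 ≤ |sm ex F|) :=
      mul_le_mul_of_nonneg_left hP (by positivity)
    refine h1.trans ?_
    unfold Pr
    rw [change ht (cst q) hdet1.det, change ht (cst q) hdet2.det, ← Ex_mul_left, ← Ex_sub,
      ← Ex_sub, ← Ex_add]
    refine Ex_mono hf_ok fun F hF => ?_
    by_cases hg : G0 F
    · have e1 : (ind (G0 F ∧ 1 < dens (cst q) ex F) * dens (cst q) ex F -
          ind (G0 F ∧ 1 < dens (cst q) ex F) + (ind (G0 F ∧ dens (cst q) ex F < 1) -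
          ind (G0 F ∧ dens (cst q) ex F < 1) * dens (cst q) ex F)) =
          |dens (cst q) ex F - 1| := by
        rcases lt_trichotomy (dens (cst q) ex F) 1 with h | h | h
        · rw [ind_not_of (fun h' => absurd h'.2 (not_lt.mpr h.le)), ind_of ⟨hg, h⟩,
            abs_of_neg (by linarith)]
          ring
        · rw [h]
          simp
        · rw [ind_of ⟨hg, h⟩, ind_not_of (fun h' => absurd h'.2 (not_lt.mpr h.le)),
            abs_of_pos (by linarith)]
          ring
      rw [e1]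
      by_cases hS : Real.sqrt K / 6 ≤ |sm ex F|
      · rw [ind_of ⟨hg, hS⟩, mul_one]
        exact dens_away hq hK1 hx F (hK F hF) hS
      · rw [ind_not_of (fun h => hS h.2), mul_zero]
        exact abs_nonneg _
    · rw [ind_not_of (fun h => hg h.1), ind_not_of (fun h => hg h.1),
        ind_not_of (fun h => hg h.1)]
      simp
  rcases le_total (x / 2949120) (Pr (cst q) S (fun F => G0 F ∧ 1 < dens (cst q) ex F) -
        Pr hf S (fun F => G0 F ∧ 1 < dens (cst q) ex F)) with h | h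
  · exact ⟨_, hdet1, fun F h => h.1, h.trans (le_abs_self _)⟩
  · refine ⟨_, hdet2, fun F h => h.1, ?_⟩
    rw [abs_sub_comm]
    refine le_trans ?_ (le_abs_self _)
    linarith

end Q292.TVX
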