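import Pool.Agent.Q292.TVX.Path
import Pool.Agent.Q292.TVX.Lower

/-!
Independent edges with general probabilities; the exit time.
-/

set_option autoImplicit false

namespace Q292.TVX

open H974 Finset H342P H984P H984H MeasureTheory ProbabilityTheory

/-- Independent edges; `p e` is the probability that `e` is open. -/
noncomputable def law (p : Edg → unitInterval) : Measure Conf :=
  Measure.infinitePi (fun e : Edg => bernoulliMeasure true false (p e))

instance (p : Edg → unitInterval) : IsProbabilityMeasure (law p) := by unfold law; infer_instance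

/-- the probability `1 / 2` -/
noncomputable def half : unitInterval := ⟨1/2, by norm_num, by norm_num⟩

theorem bern_iff (q : unitInterval) (P : Prop) [Decidable P] :
    (bernoulliMeasure true false q {b : Bool | b = true ↔ P}).toReal =
      if P then (q : ℝ) else 1 - (q : ℝ) := by
  rw [← measureReal_def]
  by_cases he : P
  · have : {b : Bool | b = true ↔ P} = {true} := by
      ext b; simp [he]
    rw [this, if_pos he, bernoulliMeasure_real_apply_of_mem_of_notMem _
      (measurableSet_singleton _) (by simp) (by simp)]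
  · have : {b : Bool | b = true ↔ P} = {false} := by
      ext b; simp [he]
    rw [this, if_neg he, bernoulliMeasure_real_apply_of_notMem_of_mem _
      (measurableSet_singleton _) (by simp) (by simp)]
    try simp

theorem law_half : law (fun _ => half) = perc := by
  unfold law perc
  congr 1
  funext e
  refine Measure.ext_of_singleton fun b => ?_
  rw [Perc_coin_eq]
  have h := bern_iff half (b = true)
  have h1 : {c : Bool | c = true ↔ b = true} = {b} := by
    ext c; cases b <;> cases c <;> simp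
  rw [h1] at h
  have h2 : (bernoulliMeasure true false half {b}).toReal = 1/2 := by
    rw [h]
    unfold half
    split_ifs <;> norm_num
  rw [← ENNReal.ofReal_toReal (measure_ne_top (bernoulliMeasure true false half) {b}), h2]
  rw [ENNReal.ofReal_div_of_pos (by norm_num)]
  simp

theorem law_prob_cut (p : Edg → unitInterval) (ρ : ℤ) {T : Finset Edg} (hT : T ⊆ (bx ρ).edges) :
    (law p).real {ω : Conf | cut ω ρ = T} =
      (∏ e ∈ T, (p e : ℝ)) * ∏ e ∈ (bx ρ).edges \ T, (1 - (p e : ℝ)) := by
  classical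
  unfold law
  rw [measureReal_def, Perc_cut_pi ρ hT]
  rw [Measure.infinitePi_pi _ (fun _ _ => MeasurableSet.of_discrete), ENNReal.toReal_prod]
  have h1 : ∀ e ∈ (bx ρ).edges, (bernoulliMeasure true false (p e)
      {b : Bool | b = true ↔ e ∈ T}).toReal = if e ∈ T then (p e : ℝ) else 1 - (p e : ℝ) :=
    fun e _ => bern_iff (p e) (e ∈ T)
  rw [Finset.prod_congr rfl h1]
  have h2 : (bx ρ).edges = T ∪ ((bx ρ).edges \ T) := by
    rw [Finset.union_sdiff_of_subset hT]
  conv_lhs => rw [h2]
  rw [Finset.prod_union Finset.disjoint_sdiff]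
  congr 1
  · exact Finset.prod_congr rfl fun e he => by rw [if_pos he]
  · exact Finset.prod_congr rfl fun e he => by rw [if_neg (Finset.mem_sdiff.mp he).2]

/-- Events of the box of size `ρ`. -/
theorem law_cut (p : Edg → unitInterval) (ρ : ℤ) (A : Finset Edg → Prop) :
    (law p).real {ω | A (cut ω ρ)} = Pr (fun e => (p e : ℝ)) (bx ρ).edges A := by
  classical
  have h1 : {ω : Conf | A (cut ω ρ)} =
      ⋃ T ∈ (bx ρ).edges.powerset.filter A, {ω : Conf | cut ω ρ = T} := by
    ext ω
    simp only [Set.mem_ofPred_eq, Set.mem_iUnion, Finset.mem_filter, Finset.mem_powerset,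
      exists_prop]
    exact ⟨fun h => ⟨_, ⟨Perc_cut_sub ω ρ, h⟩, rfl⟩, fun ⟨T, h2, h3⟩ => by rw [h3]; exact h2.2⟩
  rw [h1, measureReal_biUnion_finset]
  · unfold Pr Ex
    rw [Finset.sum_filter]
    refine Finset.sum_congr rfl fun T hT => ?_
    rw [Finset.mem_powerset] at hT
    beta_reduce
    by_cases hA : A T
    · rw [if_pos hA, ind_of hA, mul_one, law_prob_cut p ρ hT]
    · rw [if_neg hA, ind_not_of hA, mul_zero]
  · intro T _ T' _ hne
    rw [Function.onFun, Set.disjoint_left]
    intro ω h2 h3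
    exact hne (h2.symm.trans h3)
  · intro T _
    exact Perc_meas_cut ρ T

theorem perc_cut' (ρ : ℤ) (A : Finset Edg → Prop) :
    perc.real {ω | A (cut ω ρ)} = Pr hf (bx ρ).edges A := by
  rw [← law_half, law_cut]
  rfl

/-! ### the exit time -/

/-- The first time at which the path is at distance at least `R` from the origin. -/
noncomputable def exit (R : ℝ) (ω : Conf) : ℕ := sInf {k | R ≤ ‖gam ω k‖}

/-- The path stopped at this time. -/
noncomputable def stop (R : ℝ) (ω : Conf) (k : ℕ) : St := path ω (min k (exit R ω))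

theorem exists_exit (R : ℝ) : ∃ N : ℕ, ∀ ω : Conf, ∃ k ≤ N, R ≤ ‖gam ω k‖ := by
  classical
  set m : ℤ := ⌈R⌉ + 1 with hm
  set X : Finset St := ((Finset.Icc (-m) m ×ˢ Finset.Icc (-m) m) ×ˢ
    ({Q4.ne, Q4.nw, Q4.sw, Q4.se} : Finset Q4)) with hX
  refine ⟨X.card, fun ω => ?_⟩
  by_contra hcon
  push Not at hcon
  have h1 : ∀ k ∈ Finset.range (X.card + 1), path ω k ∈ X := by
    intro k hk
    rw [Finset.mem_range] at hk
    have h2 := hcon k (by omega)
    have h3 := le_norm_place (path ω k)
    unfold gam at h2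
    generalize path ω k = σ at h2 h3
    obtain ⟨⟨x, y⟩, q⟩ := σ
    have h4 : ((sd (x, y) (0, 0) : ℤ) : ℝ) < m := by
      have := Int.le_ceil R
      simp only at h3
      rw [hm]; push_cast; linarith
    have h5 : sd (x, y) (0, 0) < m := by exact_mod_cast h4
    have h6 : |x| < m := lt_of_le_of_lt (by simp [sd]) h5
    have h7 : |y| < m := lt_of_le_of_lt (by simp [sd]) h5
    rw [abs_lt] at h6 h7
    rw [hX, Finset.mem_product, Finset.mem_product, Finset.mem_Icc, Finset.mem_Icc]
    refine ⟨⟨⟨by simp only; omega, by simp only; omega⟩, ⟨by simp only; omega,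
      by simp only; omega⟩⟩, ?_⟩
    cases q <;> simp
  have h2 : (Finset.range (X.card + 1)).card ≤ X.card :=
    Finset.card_le_card_of_injOn (path ω) (fun k hk => h1 k (by simpa using hk))
      (fun i _ j _ hij => by
        by_contra hne
        exact path_inj ω hne hij)
  rw [Finset.card_range] at h2
  omega

theorem exit_nonempty (R : ℝ) (ω : Conf) : {k | R ≤ ‖gam ω k‖}.Nonempty := by
  obtain ⟨N, h⟩ := exists_exit R
  obtain ⟨k, -, hk⟩ := h ω
  exact ⟨k, hk⟩

theorem exit_spec (R : ℝ) (ω : Conf) : R ≤ ‖gam ω (exit R ω)‖ := Nat.sInf_mem (exit_nonempty R ω)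

theorem lt_of_lt_exit {R : ℝ} {ω : Conf} {k : ℕ} (h : k < exit R ω) : ‖gam ω k‖ < R := by
  have := Nat.notMem_of_lt_sInf h
  simpa using this

theorem exit_le {R : ℝ} {ω : Conf} {k : ℕ} (h : R ≤ ‖gam ω k‖) : exit R ω ≤ k := Nat.sInf_le h

theorem le_exit_iff {R : ℝ} {ω : Conf} {K : ℕ} : K ≤ exit R ω ↔ ∀ k < K, ‖gam ω k‖ < R := by
  constructor
  · intro h k hk
    exact lt_of_lt_exit (by omega)
  · intro h
    by_contra hcon
    rw [not_le] at hcon
    exact absurd (exit_spec R ω) (not_le.mpr (h _ hcon))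

theorem exit_bdd (R : ℝ) : ∃ N : ℕ, ∀ ω : Conf, exit R ω ≤ N := by
  obtain ⟨N, h⟩ := exists_exit R
  refine ⟨N, fun ω => ?_⟩
  obtain ⟨k, hk, hk2⟩ := h ω
  exact (exit_le hk2).trans hk

theorem stp_exit (R : ℝ) : Stp (exit R) := by
  intro ω ω' h
  apply le_antisymm
  · apply exit_le
    unfold gam
    rw [h _ le_rfl]
    exact exit_spec R ω
  · rw [le_exit_iff]
    intro k hk
    unfold gam
    rw [h k hk.le]
    exact lt_of_lt_exit hk

theorem stp_const (K : ℕ) : Stp (fun _ => K) := fun _ _ _ => rfl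

theorem stop_eq {R : ℝ} {ω : Conf} {k : ℕ} (h : k ≤ exit R ω) : stop R ω k = path ω k := by
  unfold stop
  rw [min_eq_left h]

theorem stop_congr {R : ℝ} {ω ω' : Conf} (h : ∀ j ≤ exit R ω, path ω' j = path ω j) :
    stop R ω' = stop R ω := by
  funext k
  unfold stop
  rw [stp_exit R ω ω' h]
  exact h _ (min_le_right _ _)

theorem stop_inj {R : ℝ} {ω ω' : Conf} (h : stop R ω' = stop R ω) {K : ℕ} (hK : K ≤ exit R ω) :
    ∀ j ≤ K, path ω' j = path ω j := by
  have h1 : K ≤ exit R ω' := by
    by_contra hcon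
    rw [not_le] at hcon
    have h2 := congrFun h (exit R ω')
    rw [stop_eq le_rfl, stop_eq (by omega)] at h2
    have h3 := exit_spec R ω'
    have h4 : ‖gam ω (exit R ω')‖ < R := lt_of_lt_exit (by omega)
    unfold gam at h3 h4
    rw [h2] at h3
    linarith
  intro j hj
  have h2 := congrFun h j
  rwa [stop_eq (by omega), stop_eq (by omega)] at h2

/-- The laws of the stopped path in terms of a finite box. -/
theorem law_stop (p : Edg → unitInterval) {R : ℝ} {ρ : ℤ} (hρ : ∀ ω, (exit R ω : ℤ) ≤ ρ)
    (B : Set (ℕ → St)) :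
    (law p).real {ω | stop R ω ∈ B} =
      Pr (fun e => (p e : ℝ)) (bx ρ).edges (fun F => stop R (conf F) ∈ B) := by
  rw [← law_cut]
  congr 1
  ext ω
  have h : stop R (conf (cut ω ρ)) = stop R ω := stop_congr fun j hj =>
    path_conf ω ρ j (by have := hρ ω; omega)
  show stop R ω ∈ B ↔ stop R (conf (cut ω ρ)) ∈ B
  rw [h]

theorem detP_stop {R : ℝ} (S : Finset Edg) (B : Set (ℕ → St)) :
    DetP S (exT (exit R)) (fun F => stop R (conf F) ∈ B) := by
  intro F G _ _ h
  have h1 := inter_iff.mp h
  beta_reduce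
  rw [stop_congr h1]

end Q292.TVX
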