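import Pool.Agent.Q292.TVX.Tree
import Pool.Agent.H984R4.HN.Couple
import Pool.Agent.H984R4.HN.Perc

/-!
The exploration of the half-plane by its path: the examined edges.
-/

set_option autoImplicit false

namespace Q292.TVX

open H974 Finset H342P H984P H984H MeasureTheory

/-- the edge which is examined in the state `σ` -/
def ea (σ : St) : Edg := match σ.2 with
  | .ne => (σ.1.1, σ.1.2, false)
  | .nw => (σ.1.1 - 1, σ.1.2, true)
  | .sw => (σ.1.1, σ.1.2 - 1, false)
  | .se => (σ.1.1, σ.1.2, true)

/-- the edges with a random status -/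
def rnd (e : Edg) : Prop := 0 ≤ e.2.1 ∧ ¬ (e.2.1 = 0 ∧ e.2.2 = true)

instance (e : Edg) : Decidable (rnd e) := by unfold rnd; infer_instance

theorem step_ea {G G' : Set Edg} {σ : St} (h : ea σ ∈ G ↔ ea σ ∈ G') : step G σ = step G' σ := by
  classical
  obtain ⟨⟨x, y⟩, q⟩ := σ
  cases q
  all_goals
    simp only [step]
    exact if_congr h rfl rfl

theorem ea_step {G G' : Set Edg} {σ : St} (h : step G σ = step G' σ) :
    ea σ ∈ G ↔ ea σ ∈ G' := by
  obtain ⟨⟨x, y⟩, q⟩ := σ
  cases q
  all_goals
    simp only [ea]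
    simp only [step] at h
    split_ifs at h with h1 h2 h2
    · simp [h1, h2]
    · simp at h
    · simp at h
    · simp [h1, h2]

/-- a finite configuration -/
def conf (F : Finset Edg) : Conf := fun e => decide (e ∈ F)

theorem mem_opn_iff (ω : Conf) (e : Edg) : e ∈ opn ω ↔
    (e.2.1 = 0 ∧ e.2.2 = true ∧ e.1 < 0) ∨ (rnd e ∧ ω e = true) := by
  unfold opn rnd
  simp only [Set.mem_ofPred_eq, and_assoc]

theorem opn_congr {ω ω' : Conf} {e : Edg} (h : rnd e → (ω e = true ↔ ω' e = true)) :
    e ∈ opn ω ↔ e ∈ opn ω' := by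
  rw [mem_opn_iff, mem_opn_iff]
  by_cases hr : rnd e
  · simp only [hr, true_and, h hr]
  · simp only [hr, false_and]

theorem of_opn {ω ω' : Conf} {e : Edg} (hr : rnd e) (h : e ∈ opn ω ↔ e ∈ opn ω') :
    ω e = true ↔ ω' e = true := by
  rw [mem_opn_iff, mem_opn_iff] at h
  have hn : ¬ (e.2.1 = 0 ∧ e.2.2 = true ∧ e.1 < 0) := fun h' => hr.2 ⟨h'.1, h'.2.1⟩
  simpa [hn, hr] using h

/-- the random edges examined before the time `T` -/
noncomputable def exT (T : Conf → ℕ) (F : Finset Edg) : Finset Edg :=
  ((range (T (conf F))).image (fun j => ea (path (conf F) j))).filter rnd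

/-- `T` is a stopping time of the path -/
def Stp (T : Conf → ℕ) : Prop := ∀ ω ω' : Conf, (∀ j ≤ T ω, path ω' j = path ω j) → T ω' = T ω

/-- Configurations which agree on the random edges examined by the path give the same path. -/
theorem path_agree {ω ω' : Conf} {n : ℕ}
    (h : ∀ j < n, rnd (ea (path ω j)) → (ω (ea (path ω j)) = true ↔ ω' (ea (path ω j)) = true)) :
    ∀ j ≤ n, path ω' j = path ω j := by
  intro j
  induction j with
  | zero => intro _; rfl
  | succ j ih =>
    intro hj
    have h1 := ih (by omega)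
    rw [path_succ, path_succ, h1]
    exact step_ea (opn_congr fun hr => (h j (by omega) hr).symm)

theorem agree_path {ω ω' : Conf} {n : ℕ} (h : ∀ j ≤ n, path ω' j = path ω j) :
    ∀ j < n, rnd (ea (path ω j)) → (ω (ea (path ω j)) = true ↔ ω' (ea (path ω j)) = true) := by
  intro j hj hr
  have h1 := h j (by omega)
  have h2 := h (j + 1) (by omega)
  rw [path_succ, path_succ, h1] at h2
  exact of_opn hr (ea_step h2.symm)

theorem mem_exT {T : Conf → ℕ} {F : Finset Edg} {e : Edg} :
    e ∈ exT T F ↔ (∃ j < T (conf F), ea (path (conf F) j) = e) ∧ rnd e := by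
  unfold exT
  rw [Finset.mem_filter, Finset.mem_image]
  simp only [Finset.mem_range]

theorem inter_iff {T : Conf → ℕ} {F G : Finset Edg} :
    G ∩ exT T F = F ∩ exT T F ↔ ∀ j ≤ T (conf F), path (conf G) j = path (conf F) j := by
  constructor
  · intro h
    apply path_agree
    intro j hj hr
    have h1 : ea (path (conf F) j) ∈ exT T F := mem_exT.mpr ⟨⟨j, hj, rfl⟩, hr⟩
    have h2 : ea (path (conf F) j) ∈ G ∩ exT T F ↔ ea (path (conf F) j) ∈ F ∩ exT T F := by rw [h]
    simp only [Finset.mem_inter, h1, and_true] at h2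
    simp only [conf, decide_eq_true_eq]
    exact h2.symm
  · intro h
    ext e
    simp only [Finset.mem_inter]
    constructor
    · rintro ⟨h1, h2⟩
      obtain ⟨⟨j, hj, rfl⟩, hr⟩ := mem_exT.mp h2
      have h3 := agree_path h j hj hr
      simp only [conf, decide_eq_true_eq] at h3
      exact ⟨h3.mpr h1, h2⟩
    · rintro ⟨h1, h2⟩
      obtain ⟨⟨j, hj, rfl⟩, hr⟩ := mem_exT.mp h2
      have h3 := agree_path h j hj hr
      simp only [conf, decide_eq_true_eq] at h3
      exact ⟨h3.mp h1, h2⟩

theorem path_sd0 (ω : Conf) (j : ℕ) : sd (path ω j).1 (0, 0) ≤ j := by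
  have h1 := path_sd ω (Nat.zero_le j)
  have h2 : sd (path ω j).1 (0, 0) = sd (path ω 0).1 (path ω j).1 := by
    have : (path ω 0).1 = (0, 0) := rfl
    rw [this]
    simp only [sd]
    rw [abs_sub_comm, abs_sub_comm (path ω j).1.2]
  rw [h2]
  simpa using h1

/-- The random edges examined before the time `ρ` are in the box of size `ρ`. -/
theorem ea_box {ω : Conf} {j : ℕ} {ρ : ℤ} (hj : (j : ℤ) < ρ) (hr : rnd (ea (path ω j))) :
    ea (path ω j) ∈ (bx ρ).edges := by
  have h1 := path_sd0 ω j
  have h2 := path_nonneg ω j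
  generalize path ω j = σ at h1 h2 hr
  obtain ⟨⟨x, y⟩, q⟩ := σ
  have h3 : |x| ≤ (j : ℤ) := by
    have := (le_max_left _ _).trans h1
    simpa using this
  have h4 : |y| ≤ (j : ℤ) := by
    have := (le_max_right _ _).trans h1
    simpa using this
  rw [abs_le] at h3 h4
  simp only at h2
  change _ ∈ RE (-ρ) ρ 0 ρ
  cases q <;> simp only [ea, rnd] at hr ⊢
  · rw [mem_RE_false]; omega
  · rw [mem_RE_true]; omega
  · rw [mem_RE_false]; omega
  · rw [mem_RE_true]; omega

theorem tree_exT {T : Conf → ℕ} (hT : Stp T) {ρ : ℤ} (hb : ∀ ω, (T ω : ℤ) ≤ ρ) :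
    Tree (bx ρ).edges (exT T) where
  sub F _ := by
    intro e he
    obtain ⟨⟨j, hj, rfl⟩, hr⟩ := mem_exT.mp he
    have := hb (conf F)
    exact ea_box (by omega) hr
  stab F G _ _ h := by
    have h1 := inter_iff.mp h
    have h2 := hT _ _ h1
    unfold exT
    rw [h2]
    congr 1
    refine Finset.image_congr fun j hj => ?_
    rw [Finset.coe_range, Set.mem_Iio] at hj
    rw [h1 j hj.le]

/-- The path up to the time `ρ` only depends on the box of size `ρ`. -/
theorem path_conf (ω : Conf) (ρ : ℤ) : ∀ j : ℕ, (j : ℤ) ≤ ρ →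
    path (conf (cut ω ρ)) j = path ω j := by
  intro n hn
  refine path_agree (ω := ω) (n := n) ?_ n le_rfl
  intro j hj hr
  have h := ea_box (ρ := ρ) (by omega) hr
  simp only [conf, decide_eq_true_eq, Perc_mem_cut, h, true_and]

theorem Stp.conf {T : Conf → ℕ} (hT : Stp T) {ρ : ℤ} (ω : Conf) (hb : (T ω : ℤ) ≤ ρ) :
    T (conf (cut ω ρ)) = T ω := hT ω _ fun j hj => path_conf ω ρ j (by omega)

/-! ### the number of examined edges -/

theorem inv_sw (ω : Conf) (k : ℕ) : (path ω k).1.2 = 0 →
    ((path ω k).2 = .sw → 1 ≤ (path ω k).1.1) ∧ ((path ω k).2 = .se → 1 ≤ (path ω k).1.1) := by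
  induction k with
  | zero => intro _; exact ⟨fun h => by simp [path] at h, fun h => by simp [path] at h⟩
  | succ k ih =>
    have hn := path_nonneg ω k
    rw [path_succ]
    generalize path ω k = σ at ih hn
    obtain ⟨⟨x, y⟩, q⟩ := σ
    simp only at ih hn
    cases q
    · by_cases h : ((x, y, false) : Edg) ∈ opn ω
      · simp only [step, h, if_true]
        intro h0
        omega
      · simp [step, h]
    · by_cases h : ((x - 1, y, true) : Edg) ∈ opn ω
      · simp [step, h]
      · simp only [step, h, if_false]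
        intro h0
        refine ⟨fun _ => ?_, fun h => by cases h⟩
        by_contra hx
        exact h ((mem_opn_iff _ _).mpr (Or.inl ⟨h0, rfl, by simp only; omega⟩))
    · by_cases h : ((x, y - 1, false) : Edg) ∈ opn ω
      · simp [step, h]
      · simp only [step, h, if_false]
        intro h0
        exact ⟨fun h => (by cases h), fun _ => (ih h0).1 rfl⟩
    · by_cases h : ((x, y, true) : Edg) ∈ opn ω
      · simp only [step, h, if_true]
        intro h0
        exfalso
        have h1 := (ih h0).2 rfl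
        rcases (mem_opn_iff _ _).mp h with h2 | h2
        · simp only at h2; omega
        · exact h2.1.2 ⟨h0, rfl⟩
      · simp [step, h]

theorem rnd_next_se {ω : Conf} {k : ℕ} (h0 : (path ω k).1.2 = 0) (hq : (path ω k).2 = .se) :
    rnd (ea (path ω (k + 1))) := by
  have h1 := (inv_sw ω k h0).2 hq
  rw [path_succ]
  generalize path ω k = σ at h0 hq h1
  obtain ⟨⟨x, y⟩, q⟩ := σ
  simp only at h0 hq h1
  subst h0 hq
  have h : ((x, 0, true) : Edg) ∉ opn ω := by
    rw [mem_opn_iff]
    rintro (h2 | h2)
    · simp only at h2; omega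
    · exact h2.1.2 ⟨rfl, rfl⟩
  simp [step, h, ea, rnd]

theorem next_sw {ω : Conf} {k : ℕ} (h0 : (path ω k).1.2 = 0) (hq : (path ω k).2 = .sw) :
    (path ω (k + 1)).1.2 = 0 ∧ (path ω (k + 1)).2 = .se := by
  rw [path_succ]
  generalize path ω k = σ at h0 hq
  obtain ⟨⟨x, y⟩, q⟩ := σ
  simp only at h0 hq
  subst h0 hq
  have h : ((x, (0 : ℤ) - 1, false) : Edg) ∉ opn ω := by
    rw [mem_opn_iff]
    rintro (h2 | h2)
    · simp at h2
    · have := h2.1.1
      simp at this
  simp only [step, h, if_false, and_self]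

theorem next_nw {ω : Conf} {k : ℕ} (h0 : (path ω k).1.2 = 0) (hq : (path ω k).2 = .nw) :
    rnd (ea (path ω (k + 1))) ∨ ((path ω (k + 1)).1.2 = 0 ∧ (path ω (k + 1)).2 = .sw) := by
  rw [path_succ]
  generalize path ω k = σ at h0 hq
  obtain ⟨⟨x, y⟩, q⟩ := σ
  simp only at h0 hq
  subst h0 hq
  by_cases h : ((x - 1, 0, true) : Edg) ∈ opn ω
  · left
    simp [step, h, ea, rnd]
  · right
    simp only [step, h, if_false, and_self]

/-- Among four consecutive examinations, one has a random edge. -/
theorem four (ω : Conf) (j : ℕ) : ∃ i, j ≤ i ∧ i < j + 4 ∧ rnd (ea (path ω i)) := by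
  have hn := path_nonneg ω j
  by_cases h0 : (path ω j).1.2 = 0
  · cases hq : (path ω j).2
    · refine ⟨j, le_rfl, by omega, ?_⟩
      generalize path ω j = σ at h0 hq
      obtain ⟨⟨x, y⟩, q⟩ := σ
      simp only at h0 hq
      subst h0 hq
      simp [ea, rnd]
    · rcases next_nw h0 hq with h1 | ⟨h1, h2⟩
      · exact ⟨j + 1, by omega, by omega, h1⟩
      · obtain ⟨h3, h4⟩ := next_sw h1 h2
        exact ⟨j + 1 + 1 + 1, by omega, by omega, rnd_next_se h3 h4⟩
    · obtain ⟨h3, h4⟩ := next_sw h0 hq
      exact ⟨j + 1 + 1, by omega, by omega, rnd_next_se h3 h4⟩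
    · exact ⟨j + 1, by omega, by omega, rnd_next_se h0 hq⟩
  · refine ⟨j, le_rfl, by omega, ?_⟩
    generalize path ω j = σ at h0 hn
    obtain ⟨⟨x, y⟩, q⟩ := σ
    simp only at h0 hn
    cases q
    · simp [ea, rnd, hn]
    · simp [ea, rnd, hn, h0]
    · have : 0 ≤ y - 1 := by omega
      simp only [ea, rnd, Bool.false_eq_true, and_false, not_false_eq_true, and_true]
      exact this
    · simp [ea, rnd, hn, h0]

theorem cnt (ω : Conf) (m : ℕ) :
    m ≤ ((range (4 * m)).filter (fun j => rnd (ea (path ω j)))).card := by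
  induction m with
  | zero => simp
  | succ m ih =>
    obtain ⟨i, h1, h2, h3⟩ := four ω (4 * m)
    have hni : i ∉ (range (4 * m)).filter (fun j => rnd (ea (path ω j))) := by
      rw [Finset.mem_filter, Finset.mem_range]
      omega
    have hsub : insert i ((range (4 * m)).filter (fun j => rnd (ea (path ω j)))) ⊆
        (range (4 * (m + 1))).filter (fun j => rnd (ea (path ω j))) := by
      intro a ha
      rw [Finset.mem_insert, Finset.mem_filter, Finset.mem_range] at ha
      rw [Finset.mem_filter, Finset.mem_range]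
      rcases ha with rfl | ha
      · exact ⟨by omega, h3⟩
      · exact ⟨by omega, ha.2⟩
    have := Finset.card_le_card hsub
    rw [Finset.card_insert_of_notMem hni] at this
    omega

/-- An edge is examined in two states. -/
theorem ea_two (e : Edg) : ∃ a b : St, ∀ σ, ea σ = e → σ = a ∨ σ = b := by
  obtain ⟨x, y, b⟩ := e
  cases b
  · refine ⟨((x, y), .ne), ((x, y + 1), .sw), ?_⟩
    rintro ⟨⟨u, v⟩, q⟩ h
    cases q <;> simp only [ea, Prod.mk.injEq] at h
    · left; simp [h.1, h.2.1]
    · simp at h
    · right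
      rw [← h.1, ← h.2.1]
      simp
    · simp at h
  · refine ⟨((x, y), .se), ((x + 1, y), .nw), ?_⟩
    rintro ⟨⟨u, v⟩, q⟩ h
    cases q <;> simp only [ea, Prod.mk.injEq] at h
    · simp at h
    · right
      rw [← h.1, ← h.2.1]
      simp
    · simp at h
    · left; simp [h.1, h.2.1]

theorem card_exT_le (T : Conf → ℕ) (F : Finset Edg) : (exT T F).card ≤ T (conf F) := by
  unfold exT
  refine (Finset.card_filter_le _ _).trans (Finset.card_image_le.trans ?_)
  rw [Finset.card_range]

theorem card_exT_ge (T : Conf → ℕ) (F : Finset Edg) : T (conf F) / 8 ≤ (exT T F).card := by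
  classical
  set ω := conf F with hω
  set K := T ω with hK
  have h1 : exT T F = ((range K).filter (fun j => rnd (ea (path ω j)))).image
      (fun j => ea (path ω j)) := by
    unfold exT
    rw [Finset.filter_image]
  have h2 : K / 4 ≤ ((range K).filter (fun j => rnd (ea (path ω j)))).card := by
    refine (cnt ω (K/4)).trans (Finset.card_le_card ?_)
    apply Finset.filter_subset_filter
    rw [Finset.range_subset_range]
    omega
  have h3 : ((range K).filter (fun j => rnd (ea (path ω j)))).card ≤ 2 * (exT T F).card := by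
    rw [h1]
    apply Finset.card_le_mul_card_image
    intro e _
    obtain ⟨a, b, hab⟩ := ea_two e
    have h4 : ({x ∈ (range K).filter (fun j => rnd (ea (path ω j))) |
        ea (path ω x) = e} : Finset ℕ).card ≤ ({a, b} : Finset St).card := by
      apply Finset.card_le_card_of_injOn (path ω)
      · intro j hj
        simp only [Finset.coe_filter, Set.mem_ofPred_eq] at hj
        simp only [Finset.coe_insert, Finset.coe_singleton, Set.mem_insert_iff,
          Set.mem_singleton_iff]
        exact hab _ hj.2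
      · intro i _ j _ hij
        by_contra hne
        exact path_inj ω hne hij
    exact h4.trans Finset.card_le_two
  omega

end Q292.TVX
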