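import Pool.Agent.H974R2.Static

/-!
Change of measure along an exploration: the examined set `ex F` is determined by the configuration
on `ex F`.
-/

set_option autoImplicit false

namespace Q292.TVX

open H974 Finset

variable {E : Type*} [DecidableEq E]

/-- `ex` is an exploration in `S` -/
structure Tree (S : Finset E) (ex : Finset E → Finset E) : Prop where
  sub : ∀ F, F ⊆ S → ex F ⊆ S
  stab : ∀ F G, F ⊆ S → G ⊆ S → G ∩ ex F = F ∩ ex F → ex G = ex F

/-- `f` is determined by the exploration -/
def Det (S : Finset E) (ex : Finset E → Finset E) (f : Finset E → ℝ) : Prop :=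
  ∀ F G, F ⊆ S → G ⊆ S → G ∩ ex F = F ∩ ex F → f G = f F

/-- the weight of the status of `e` -/
noncomputable def pe (p : E → ℝ) (F : Finset E) (e : E) : ℝ := if e ∈ F then p e else 1 - p e

/-- the density with respect to fair coins -/
noncomputable def dens (p : E → ℝ) (ex : Finset E → Finset E) (F : Finset E) : ℝ :=
  ∏ e ∈ ex F, 2 * pe p F e

/-- the sign of the status of `e` -/
noncomputable def sg (F : Finset E) (e : E) : ℝ := if e ∈ F then 1 else -1

/-- fair coins -/
noncomputable abbrev hf : E → ℝ := fun _ => 1 / 2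

omit [DecidableEq E] in
theorem hf_ok : Ok (hf : E → ℝ) := fun _ => ⟨by norm_num, by norm_num⟩

theorem cyl (p : E → ℝ) {S E0 : Finset E} (h0 : E0 ⊆ S) (G : Finset E) :
    Ex p S (fun F => ind (F ∩ E0 = G ∩ E0)) = ∏ e ∈ E0, pe p G e := by
  rw [Ex_local h0 (fun F _ => by rw [Finset.inter_assoc, Finset.inter_self])]
  unfold Ex
  rw [Finset.sum_eq_single (G ∩ E0)]
  · beta_reduce
    rw [Finset.inter_assoc, Finset.inter_self, ind_of rfl, mul_one]
    have h1 : E0 = (G ∩ E0) ∪ (E0 \ (G ∩ E0)) := by
      rw [Finset.union_sdiff_of_subset Finset.inter_subset_right]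
    conv_rhs => rw [h1]
    rw [Finset.prod_union Finset.disjoint_sdiff]
    congr 1
    · refine Finset.prod_congr rfl fun e he => ?_
      rw [pe, if_pos (Finset.mem_inter.mp he).1]
    · refine Finset.prod_congr rfl fun e he => ?_
      rw [Finset.mem_sdiff, Finset.mem_inter] at he
      rw [pe, if_neg (fun h => he.2 ⟨h, he.1⟩)]
  · intro F hF hne
    rw [Finset.mem_powerset] at hF
    beta_reduce
    rw [ind_not_of, mul_zero]
    rwa [Finset.inter_eq_left.mpr hF]
  · intro h
    exact absurd (Finset.mem_powerset.mpr Finset.inter_subset_right) h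

theorem Ex_swap (p q : E → ℝ) (S T : Finset E) (h : Finset E → Finset E → ℝ) :
    Ex p S (fun F => Ex q T (fun G => h F G)) = Ex q T (fun G => Ex p S (fun F => h F G)) := by
  unfold Ex
  simp only [Finset.mul_sum]
  rw [Finset.sum_comm]
  refine Finset.sum_congr rfl fun F _ => Finset.sum_congr rfl fun G _ => ?_
  ring

/-- Change of measure. -/
theorem change {S : Finset E} {ex : Finset E → Finset E} (ht : Tree S ex) (p : E → ℝ)
    {f : Finset E → ℝ} (hf' : Det S ex f) :
    Ex p S f = Ex hf S (fun F => f F * dens p ex F) := by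
  have h1 : ∀ F, F ⊆ S → f F = Ex hf S (fun G =>
      f F * 2 ^ (ex F).card * ind (G ∩ ex F = F ∩ ex F)) := by
    intro F hF
    rw [Ex_mul_left, cyl hf (ht.sub F hF) F]
    have : ∏ e ∈ ex F, pe (hf : E → ℝ) F e = (1/2) ^ (ex F).card := by
      rw [Finset.prod_congr rfl (g := fun _ => (1/2 : ℝ)), Finset.prod_const]
      intro e _
      unfold pe
      split_ifs <;> norm_num
    rw [this, mul_assoc, ← mul_pow]
    norm_num
  rw [Ex_congr h1, Ex_swap]
  refine Ex_congr fun G hG => ?_
  have h2 : ∀ F, F ⊆ S → f F * 2 ^ (ex F).card * ind (G ∩ ex F = F ∩ ex F) =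
      f G * 2 ^ (ex G).card * ind (F ∩ ex G = G ∩ ex G) := by
    intro F hF
    by_cases hc : G ∩ ex F = F ∩ ex F
    · have e1 := ht.stab F G hF hG hc
      have e2 := hf' F G hF hG hc
      rw [ind_of hc, ← e1, ← e2, ind_of]
      rw [e1]; exact hc.symm
    · rw [ind_not_of hc, ind_not_of]
      · ring
      · intro hc'
        have e1 := ht.stab G F hG hF hc'
        exact hc (by rw [e1]; exact hc'.symm)
  rw [Ex_congr h2, Ex_mul_left, cyl p (ht.sub G hG) G, mul_assoc]
  congr 1
  unfold dens
  rw [Finset.prod_mul_distrib, Finset.prod_const]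

/-- Whether `e` is examined does not depend on the status of `e`. -/
theorem mem_ex_insert {S : Finset E} {ex : Finset E → Finset E} (ht : Tree S ex) {F : Finset E}
    {e : E} (hF : F ⊆ S) (heS : e ∈ S) : e ∈ ex (insert e F) ↔ e ∈ ex F := by
  have hF' : insert e F ⊆ S := Finset.insert_subset heS hF
  constructor
  · intro h
    by_contra hn
    have : insert e F ∩ ex F = F ∩ ex F := by
      ext x
      simp only [Finset.mem_inter, Finset.mem_insert]
      constructor
      · rintro ⟨h1 | h1, h2⟩
        · exact absurd (h1 ▸ h2) hn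
        · exact ⟨h1, h2⟩
      · rintro ⟨h1, h2⟩
        exact ⟨Or.inr h1, h2⟩
    rw [ht.stab F (insert e F) hF hF' this] at h
    exact hn h
  · intro h
    by_contra hn
    have : F ∩ ex (insert e F) = insert e F ∩ ex (insert e F) := by
      ext x
      simp only [Finset.mem_inter, Finset.mem_insert]
      constructor
      · rintro ⟨h1, h2⟩
        exact ⟨Or.inr h1, h2⟩
      · rintro ⟨h1 | h1, h2⟩
        · exact absurd (h1 ▸ h2) hn
        · exact ⟨h1, h2⟩
    rw [ht.stab (insert e F) F hF' hF this] at h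
    exact hn h

/-- The signs of the examined elements have mean zero. -/
theorem mean_sg {S : Finset E} {ex : Finset E → Finset E} (ht : Tree S ex) (a : E → ℝ) :
    Ex hf S (fun F => ∑ e ∈ ex F, a e * sg F e) = 0 := by
  have h1 : ∀ F, F ⊆ S → ∑ e ∈ ex F, a e * sg F e =
      ∑ e ∈ S, ind (e ∈ ex F) * (a e * sg F e) := by
    intro F hF
    rw [← Finset.sum_subset (ht.sub F hF)]
    · refine Finset.sum_congr rfl fun e he => ?_
      rw [ind_of he, one_mul]
    · intro e _ he
      rw [ind_not_of he, zero_mul]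
  rw [Ex_congr h1, Ex_sum]
  refine Finset.sum_eq_zero fun e he => ?_
  conv_lhs => rw [← Finset.insert_erase he]
  rw [Ex_insert _ (Finset.notMem_erase _ _)]
  have h2 : Ex hf (S.erase e) (fun F => ind (e ∈ ex (insert e F)) * (a e * sg (insert e F) e)) =
      - Ex hf (S.erase e) (fun F => ind (e ∈ ex F) * (a e * sg F e)) := by
    rw [← neg_one_mul, ← Ex_mul_left]
    refine Ex_congr fun F hF => ?_
    have hn : e ∉ F := fun h => (Finset.notMem_erase e S) (hF h)
    rw [ind_congr (mem_ex_insert ht (hF.trans (Finset.erase_subset _ _)) he)]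
    simp only [sg, Finset.mem_insert_self, if_true, if_neg hn]
    ring
  rw [h2]
  ring

end Q292.TVX
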