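import Pool.Agent.Q292.TVX.Tree

/-!
Upper bound for the total variation distance of the laws of an exploration, with the Hellinger
affinity.
-/

set_option autoImplicit false

namespace Q292.TVX

open H974 Finset

variable {E : Type*} [DecidableEq E]

/-- the Hellinger affinity -/
noncomputable def aff (p : E → ℝ) (S : Finset E) (ex : Finset E → Finset E) : ℝ :=
  Ex hf S (fun F => Real.sqrt (dens p ex F))

omit [DecidableEq E] in
theorem dens_nonneg' [DecidableEq E] {p : E → ℝ} (hp : Ok p) (ex : Finset E → Finset E)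
    (F : Finset E) : 0 ≤ dens p ex F := by
  refine Finset.prod_nonneg fun e _ => ?_
  have := hp e
  unfold pe
  split_ifs <;> linarith

theorem dens_mean {p : E → ℝ} {S : Finset E} {ex : Finset E → Finset E} (ht : Tree S ex) :
    Ex hf S (fun F => dens p ex F) = 1 := by
  have h := change ht p (f := fun _ => (1 : ℝ)) (fun _ _ _ _ _ => rfl)
  rw [Ex_const] at h
  rw [h]
  refine Ex_congr fun F _ => ?_
  rw [one_mul]

theorem aff_nonneg (p : E → ℝ) (S : Finset E) (ex : Finset E → Finset E) : 0 ≤ aff p S ex :=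
  Ex_nonneg hf_ok fun _ _ => Real.sqrt_nonneg _

theorem tv_le {p : E → ℝ} (hp : Ok p) {S : Finset E} {ex : Finset E → Finset E} (ht : Tree S ex)
    {f : Finset E → ℝ} (hd : Det S ex f) (h0 : ∀ F, 0 ≤ f F) (h1 : ∀ F, f F ≤ 1) :
    |Ex p S f - Ex hf S f| ≤ Real.sqrt (1 - aff p S ex ^ 2) := by
  apply Real.abs_le_sqrt
  have e1 : Ex p S f - Ex hf S f = Ex hf S (fun F => ((f F - 1/2) * (Real.sqrt (dens p ex F) + 1)) *
      (Real.sqrt (dens p ex F) - 1)) := by
    rw [change ht p hd]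
    have e2 : Ex hf S (fun F => ((f F - 1/2) * (Real.sqrt (dens p ex F) + 1)) *
      (Real.sqrt (dens p ex F) - 1)) = Ex hf S (fun F => (f F * dens p ex F - f F) -
        (1/2) * (dens p ex F - 1)) := by
      refine Ex_congr fun F _ => ?_
      have h := Real.sq_sqrt (dens_nonneg' hp ex F)
      linear_combination (f F - 1/2) * h
    rw [e2, Ex_sub, Ex_sub, Ex_mul_left, Ex_sub, dens_mean ht, Ex_const]
    ring
  rw [e1]
  refine (Ex_cs hf_ok S _ _).trans ?_
  have e3 : Ex hf S (fun F => (Real.sqrt (dens p ex F) - 1) ^ 2) = 2 - 2 * aff p S ex := by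
    have : Ex hf S (fun F => (Real.sqrt (dens p ex F) - 1) ^ 2) =
        Ex hf S (fun F => dens p ex F + (1 - 2 * Real.sqrt (dens p ex F))) := by
      refine Ex_congr fun F _ => ?_
      have h := Real.sq_sqrt (dens_nonneg' hp ex F)
      linear_combination h
    rw [this, Ex_add, Ex_sub, Ex_mul_left, dens_mean ht, Ex_const]
    unfold aff
    ring
  have e4 : Ex hf S (fun F => (Real.sqrt (dens p ex F) + 1) ^ 2) = 2 + 2 * aff p S ex := by
    have : Ex hf S (fun F => (Real.sqrt (dens p ex F) + 1) ^ 2) =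
        Ex hf S (fun F => dens p ex F + (1 + 2 * Real.sqrt (dens p ex F))) := by
      refine Ex_congr fun F _ => ?_
      have h := Real.sq_sqrt (dens_nonneg' hp ex F)
      linear_combination h
    rw [this, Ex_add, Ex_add, Ex_mul_left, dens_mean ht, Ex_const]
    unfold aff
    ring
  have e5 : Ex hf S (fun F => ((f F - 1/2) * (Real.sqrt (dens p ex F) + 1)) ^ 2) ≤
      (1/4) * (2 + 2 * aff p S ex) := by
    rw [← e4, ← Ex_mul_left]
    refine Ex_mono hf_ok fun F _ => ?_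
    rw [mul_pow]
    refine mul_le_mul_of_nonneg_right ?_ (sq_nonneg _)
    have := h0 F
    have := h1 F
    nlinarith
  rw [e3]
  have e6 : 0 ≤ 2 - 2 * aff p S ex := by
    rw [← e3]
    exact Ex_nonneg hf_ok fun _ _ => sq_nonneg _
  refine (mul_le_mul_of_nonneg_right e5 e6).trans (le_of_eq ?_)
  ring

/-- Lower bound of the affinity. -/
theorem aff_ge {p : E → ℝ} {S : Finset E} {ex : Finset E → Finset E} (ht : Tree S ex)
    {δ : ℝ} (h4 : δ ≤ 1/4) (hp : ∀ e, |p e - 1/2| ≤ δ) {N : ℝ}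
    (hN : Ex hf S (fun F => ((ex F).card : ℝ)) ≤ N) :
    Real.exp (-(4/3 * δ ^ 2 * N)) ≤ aff p S ex := by
  have hpp : ∀ e, 1/4 ≤ p e ∧ p e ≤ 3/4 := fun e => by
    have := abs_le.1 (hp e)
    constructor <;> linarith [this.1, this.2]
  set h : E → ℝ := fun e => (Real.log (2 * p e) + Real.log (2 * (1 - p e))) / 2 with hh
  set a : E → ℝ := fun e => (Real.log (2 * p e) - Real.log (2 * (1 - p e))) / 2 with ha
  have hpos : ∀ (F : Finset E) (e : E), 0 < 2 * pe p F e := fun F e => by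
    have := hpp e
    unfold pe
    split_ifs <;> linarith
  have hlog : ∀ (F : Finset E) (e : E), Real.log (2 * pe p F e) = h e + a e * sg F e := by
    intro F e
    unfold pe sg
    split_ifs <;> simp only [hh, ha] <;> ring
  have hD : ∀ F, Real.sqrt (dens p ex F) =
      Real.exp ((∑ e ∈ ex F, h e + ∑ e ∈ ex F, a e * sg F e) / 2) := by
    intro F
    rw [← Finset.sum_add_distrib, Real.exp_half]
    congr 1
    rw [Real.exp_sum]
    refine Finset.prod_congr rfl fun e _ => ?_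
    rw [← hlog, Real.exp_log (hpos F e)]
  have hle : ∀ e, -(8/3 * δ ^ 2) ≤ h e := by
    intro e
    have h1 := hpp e
    have h2 : h e = Real.log (2 * p e * (2 * (1 - p e))) / 2 := by
      rw [Real.log_mul (by linarith) (by linarith)]
    have h3 : (2 * p e * (2 * (1 - p e))) = 1 - 4 * (p e - 1/2) ^ 2 := by ring
    rw [h2, h3]
    have h5 : (p e - 1/2) ^ 2 ≤ δ ^ 2 := by
      rw [← sq_abs (p e - 1/2)]
      exact pow_le_pow_left₀ (abs_nonneg _) (hp e) 2
    have h6 : (p e - 1/2) ^ 2 ≤ 1/16 := by nlinarith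
    have h7 : (3:ℝ)/4 ≤ 1 - 4 * (p e - 1/2) ^ 2 := by linarith
    have h8 := Real.one_sub_inv_le_log_of_pos (x := 1 - 4 * (p e - 1/2) ^ 2) (by linarith)
    have h9 : (1 - 4 * (p e - 1/2) ^ 2)⁻¹ ≤ 1 + 16/3 * (p e - 1/2) ^ 2 := by
      rw [inv_le_iff_one_le_mul₀ (by linarith)]
      nlinarith [sq_nonneg (p e - 1/2)]
    linarith
  set m : ℝ := Ex hf S (fun F => ∑ e ∈ ex F, h e) with hm
  have hmN : -(8/3 * δ ^ 2 * N) ≤ m := by
    have h1 : Ex hf S (fun F => -(8/3 * δ ^ 2) * ((ex F).card : ℝ)) ≤ m := by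
      refine Ex_mono hf_ok fun F _ => ?_
      have := Finset.card_nsmul_le_sum (ex F) h (-(8/3 * δ ^ 2)) (fun e _ => hle e)
      rw [nsmul_eq_mul] at this
      linarith
    rw [Ex_mul_left] at h1
    have h2 : 0 ≤ 8/3 * δ ^ 2 := by positivity
    nlinarith
  have hY : Ex hf S (fun F => (∑ e ∈ ex F, h e + ∑ e ∈ ex F, a e * sg F e) / 2) = m / 2 := by
    have : Ex hf S (fun F => (∑ e ∈ ex F, h e + ∑ e ∈ ex F, a e * sg F e) / 2) =
        Ex hf S (fun F => (1/2) * (∑ e ∈ ex F, h e + ∑ e ∈ ex F, a e * sg F e)) :=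
      Ex_congr fun F _ => by ring
    rw [this, Ex_mul_left, Ex_add, mean_sg ht a]
    ring
  have hJ : Real.exp (m/2) ≤ aff p S ex := by
    have h1 : Ex hf S (fun F => Real.exp (m/2) *
        ((∑ e ∈ ex F, h e + ∑ e ∈ ex F, a e * sg F e) / 2 + (1 - m/2))) ≤ aff p S ex := by
      refine Ex_mono hf_ok fun F _ => ?_
      rw [hD F]
      have h2 := Real.add_one_le_exp ((∑ e ∈ ex F, h e + ∑ e ∈ ex F, a e * sg F e) / 2 - m/2)
      have h3 : Real.exp ((∑ e ∈ ex F, h e + ∑ e ∈ ex F, a e * sg F e) / 2) =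
          Real.exp (m/2) * Real.exp ((∑ e ∈ ex F, h e + ∑ e ∈ ex F, a e * sg F e) / 2 - m/2) := by
        rw [← Real.exp_add]
        congr 1
        ring
      rw [h3]
      refine mul_le_mul_of_nonneg_left ?_ (Real.exp_pos _).le
      linarith
    rw [Ex_mul_left, Ex_add, hY, Ex_const] at h1
    linarith
  refine le_trans ?_ hJ
  apply Real.exp_le_exp.mpr
  linarith

theorem tv_upper {p : E → ℝ} (hp : Ok p) {S : Finset E} {ex : Finset E → Finset E}
    (ht : Tree S ex) {f : Finset E → ℝ} (hd : Det S ex f) (h0 : ∀ F, 0 ≤ f F) (h1 : ∀ F, f F ≤ 1)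
    {δ : ℝ} (h4 : δ ≤ 1/4) (hpd : ∀ e, |p e - 1/2| ≤ δ) {N : ℝ}
    (hN : Ex hf S (fun F => ((ex F).card : ℝ)) ≤ N) :
    |Ex p S f - Ex hf S f| ≤ Real.sqrt (1 - Real.exp (-(3 * δ ^ 2 * N))) := by
  refine (tv_le hp ht hd h0 h1).trans (Real.sqrt_le_sqrt ?_)
  have h2 := aff_ge ht h4 hpd hN
  have hN0 : 0 ≤ N := le_trans (Ex_nonneg hf_ok fun _ _ => Nat.cast_nonneg _) hN
  have h3 : Real.exp (-(4/3 * δ ^ 2 * N)) ^ 2 ≤ aff p S ex ^ 2 :=
    pow_le_pow_left₀ (Real.exp_pos _).le h2 2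
  have h5 : Real.exp (-(4/3 * δ ^ 2 * N)) ^ 2 = Real.exp (-(8/3 * δ ^ 2 * N)) := by
    rw [← Real.exp_nat_mul]
    congr 1
    push_cast
    ring
  have h6 : Real.exp (-(3 * δ ^ 2 * N)) ≤ Real.exp (-(8/3 * δ ^ 2 * N)) := by
    apply Real.exp_le_exp.mpr
    have : 0 ≤ δ ^ 2 * N := by positivity
    linarith
  linarith

end Q292.TVX
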